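import Pool.Agent.P.MP_67c9d4_al.Om

/-! Embedded cycles in finite covers of a rose. -/

namespace Pool.Agent.P.MP_67c9d4_al

open Equiv Finset Wr
open FreeGroup hiding map_mul map_inv map_one

/-- A cyclically reduced cyclic word. -/
structure Cy (A : Type) where
  l : ℕ
  pos : 0 < l
  lam : ZMod l → A × Bool
  red : ∀ i, (lam i).1 = (lam (i + 1)).1 → (lam i).2 = (lam (i + 1)).2

/-- The element `τ` is read along an embedded cycle with set of labels `S`. -/
structure CycAt {A Q : Type} [Group Q] (π : FreeGroup A →* Q) (S : Set (Q × A))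
    (τ : FreeGroup (Q × A)) : Prop where
  mem : τ ∈ FS S
  ne : S.Nonempty
  exp : ∀ l ∈ S, ex l τ = Multiplicative.ofAdd 1 ∨ ex l τ = Multiplicative.ofAdd (-1)
  rev : ∃ m, Sg m ∧ m.comp m = MonoidHom.id _ ∧ m τ = τ⁻¹
  loop : ∃ h x, π h = 1 ∧ τ = (om π h).c x
  conj : ∀ h x, π h = 1 → (om π h).c x ∈ FS S → ∃ q : ℤ, IsConj (τ ^ q) ((om π h).c x)

namespace Cy
variable {A : Type} (c : Cy A)

instance : NeZero c.l := ⟨c.pos.ne'⟩

def pw (i : ℕ) : FreeGroup A := rd (fun i => c.lam i) i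

def u : FreeGroup A := c.pw c.l

lemma P_zero : c.pw 0 = 1 := rfl
lemma P_succ (i : ℕ) : c.pw (i + 1) = c.pw i * lt (c.lam i) := rfl

lemma P_add (i : ℕ) : c.pw (i + c.l) = c.u * c.pw i := by
  induction i with
  | zero => simp [P_zero, u]
  | succ i ih => rw [Nat.add_right_comm, P_succ, ih, P_succ, mul_assoc]; simp

lemma P_add_mul (i q : ℕ) : c.pw (i + c.l * q) = c.u ^ q * c.pw i := by
  induction q with
  | zero => simp
  | succ q ih => rw [Nat.mul_succ, ← add_assoc, P_add, ih, pow_succ', mul_assoc]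

lemma P_div (i : ℕ) : c.pw i = c.u ^ (i / c.l) * c.pw (i % c.l) := by
  rw [← P_add_mul, Nat.mod_add_div]

lemma exists_cy {z : FreeGroup A} (hz : z ≠ 1) : ∃ (c : Cy A) (g : FreeGroup A),
    z = g * c.u * g⁻¹ := by
  classical
  set L := reduceCyclically z.toWord with hL
  have h1 : z = FreeGroup.mk (reduceCyclically.conjugator z.toWord) * FreeGroup.mk L *
      (FreeGroup.mk (reduceCyclically.conjugator z.toWord))⁻¹ := by
    rw [inv_mk, mul_mk, mul_mk, hL, reduceCyclically.conj_conjugator_reduceCyclically, mk_toWord]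
  have h2 : 0 < L.length := by
    rw [List.length_pos_iff]
    intro h
    rw [h, mk_nil] at h1
    exact hz (by rw [h1, mul_one, mul_inv_cancel])
  have h3 : IsCyclicallyReduced L := reduceCyclically.isCyclicallyReduced isReduced_toWord
  haveI : NeZero L.length := ⟨h2.ne'⟩
  refine ⟨⟨L.length, h2, fun i => L[i.val]'(ZMod.val_lt i), fun i => ?_⟩,
    FreeGroup.mk (reduceCyclically.conjugator z.toWord), h1.trans ?_⟩
  · have hi := ZMod.val_lt i
    have e : (i + 1).val = (i.val + 1) % L.length := by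
      conv_lhs => rw [← ZMod.natCast_zmod_val i, ← Nat.cast_succ, ZMod.val_natCast]
    by_cases h : i.val + 1 < L.length
    · simp only [e, Nat.mod_eq_of_lt h]
      exact List.isChain_iff_getElem.1 h3.1 _ h
    · have e2 : (i + 1).val = 0 := by rw [e, show i.val + 1 = L.length by omega, Nat.mod_self]
      have e3 : i.val = L.length - 1 := by omega
      simp only [e2, e3]
      refine h3.2 _ ?_ _ ?_
      · rw [List.getLast?_eq_getElem?]; simp
      · rw [List.head?_eq_getElem?]; simp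
  · congr 2
    rw [u, pw, rd_eq, mk_eq_prod]
    congr 1
    refine List.ext_getElem (by simp) fun i h1 h2 => ?_
    simp only [List.length_map] at h1
    simp [ZMod.val_natCast, Nat.mod_eq_of_lt h1]

lemma exists_act : ∃ α : FreeGroup A →* Perm (ZMod c.l), ∀ i : ℕ, α (c.pw i) i = 0 := by
  have : ∀ a : A, ∃ σ : Perm (ZMod c.l), ∀ i : {i // (c.lam i).1 = a},
      σ (if (c.lam i.1).2 then i.1 + 1 else i.1) = if (c.lam i.1).2 then i.1 else i.1 + 1 := by
    intro a
    refine Perm.exists_extending_pair _ _ ?_ ?_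
    · rintro ⟨i, hi⟩ ⟨j, hj⟩ h
      refine Subtype.ext ?_
      cases h1 : (c.lam i).2 <;> cases h2 : (c.lam j).2 <;> simp [h1, h2] at h ⊢
      · exact h
      · subst h; have := c.red j (hj.trans hi.symm); simp [h1, h2] at this
      · subst h; have := c.red i (hi.trans hj.symm); simp [h1, h2] at this
      · exact h
    · rintro ⟨i, hi⟩ ⟨j, hj⟩ h
      refine Subtype.ext ?_
      cases h1 : (c.lam i).2 <;> cases h2 : (c.lam j).2 <;> simp [h1, h2] at h ⊢
      · exact h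
      · subst h; have := c.red i (hi.trans hj.symm); simp [h1, h2] at this
      · subst h; have := c.red j (hj.trans hi.symm); simp [h1, h2] at this
      · exact h
  choose σ hσ using this
  refine ⟨lift σ, fun i => ?_⟩
  induction i with
  | zero => simp [P_zero]
  | succ i ih =>
    rw [P_succ, map_mul, Perm.mul_apply, ← ih]
    congr 1
    have := hσ _ ⟨(i : ZMod c.l), rfl⟩
    rcases h : c.lam i with ⟨a, b⟩
    simp only [h] at this
    cases b
    · rw [lt_false, map_inv, lift_apply_of, Perm.inv_eq_iff_eq]; simpa using this.symm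
    · rw [lt_true, lift_apply_of]; simpa using this

variable {Q : Type} [Group Q] (π : FreeGroup A →* Q)

def Emb : Prop := ∀ (q : ℤ) (i j : ℕ), π (c.u ^ q * c.pw i) = π (c.pw j) → (i : ZMod c.l) = j

lemma exists_emb : ∃ N : Subgroup (FreeGroup A), N.FiniteIndex ∧
    ∀ (Q : Type) [Group Q] (π : FreeGroup A →* Q), π.ker ≤ N → c.Emb π := by
  obtain ⟨α, hα⟩ := c.exists_act
  refine ⟨α.ker, inferInstance, fun Q _ π h q i j e => ?_⟩
  have h1 : α (c.u ^ q * c.pw i) = α (c.pw j) := by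
    rw [← inv_mul_eq_one, ← map_inv, ← map_mul] at e ⊢
    exact h e
  have h2 : α c.u 0 = 0 := by simpa [u] using hα c.l
  apply (α (c.pw j)).injective
  rw [hα j, ← h1, map_mul, Perm.mul_apply, hα, map_zpow]
  exact Perm.zpow_apply_eq_self_of_apply_eq_self h2 q

def On (g : FreeGroup A) (i : ℕ) : Prop := ∃ q : ℤ, g = c.u ^ q * c.pw i

variable {c}

lemma On.congr {g : FreeGroup A} {i j : ℕ} (h : c.On g i) (e : (i : ZMod c.l) = j) : c.On g j := by
  obtain ⟨q, rfl⟩ := h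
  rw [ZMod.natCast_eq_natCast_iff'] at e
  refine ⟨q + (i / c.l : ℕ) - (j / c.l : ℕ), ?_⟩
  rw [c.P_div i, c.P_div j, e, ← zpow_natCast, ← zpow_natCast]
  group

variable {π}

lemma On.move (hE : c.Emb π) {g : FreeGroup A} {i j : ℕ} (h : c.On g i) (e : π g = π (c.pw j)) :
    c.On g j := by
  obtain ⟨q, hq⟩ := id h
  exact h.congr (hE q i j (hq ▸ e))

variable (c π)

def lab (y : Q) (i : ℕ) : (Q × A) × Bool := lbl π (c.lam i) ((π (c.pw i))⁻¹ * y)

def S (y : Q) : Set (Q × A) := {l | ∃ i, (c.lab π y i).1 = l}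

lemma c_P (y : Q) (m : ℕ) : (om π (c.pw m)).c y = rd (c.lab π y) m := by
  induction m with
  | zero => simp [P_zero, rd]
  | succ m ih => rw [P_succ, om_mul, ih, om_lt]; rfl

lemma c_P_mem (y : Q) (m : ℕ) : (om π (c.pw m)).c y ∈ FS (c.S π y) := by
  rw [c_P]; exact rd_mem (S := c.S π y) (fun i => ⟨i, rfl⟩) m

variable {c π}

lemma mem_S {y x : Q} {a : A × Bool} (h : (lbl π a x).1 ∈ c.S π y) : ∃ j : ℕ,
    (a = c.lam j ∧ x = (π (c.pw j))⁻¹ * y) ∨
      (a = ((c.lam j).1, !(c.lam j).2) ∧ x = (π (c.pw (j + 1)))⁻¹ * y) := by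
  obtain ⟨j, hj⟩ := h
  refine ⟨j, (lbl_eq π hj.symm).imp id fun h => ⟨h.1, ?_⟩⟩
  rw [h.2, P_succ, map_mul, mul_inv_rev, mul_assoc]

lemma walk (hE : c.Emb π) (y : Q) (L : List (A × Bool)) : ∀ g i, c.On g i →
    (∀ x ∈ lw π L ((π g)⁻¹ * y), x.1 ∈ c.S π y) → ∃ j, c.On (g * FreeGroup.mk L) j := by
  induction L with
  | nil => intro g i h _; exact ⟨i, by simpa [mk_nil] using h⟩
  | cons x L ih =>
    intro g i h hS
    have h1 : ∃ j, c.On (g * lt x) j := by
      obtain ⟨j, ⟨rfl, e⟩ | ⟨rfl, e⟩⟩ := mem_S (hS _ List.mem_cons_self)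
      · obtain ⟨q, rfl⟩ := h.move hE (by simpa using e)
        exact ⟨j + 1, q, by rw [P_succ, mul_assoc]⟩
      · obtain ⟨q, rfl⟩ := h.move hE (j := j + 1) (by simpa using e)
        exact ⟨j, q, by rw [P_succ, lt_not]; group⟩
    obtain ⟨j, hj⟩ := h1
    rw [mk_cons, ← mul_assoc]
    refine ih _ j hj fun a ha => hS a (List.mem_cons_of_mem _ ?_)
    rwa [map_mul, mul_inv_rev, mul_assoc] at ha

lemma letters {S : Set (Q × A)} [DecidableEq A] {h : FreeGroup A} {x : Q}
    (hS : (om π h).c x ∈ FS S) : ∀ a ∈ lw π h.toWord x, a.1 ∈ S := by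
  refine letters_of_mem (lw_reduced π isReduced_toWord x) ?_
  rwa [← om_mk, mk_toWord]

lemma walk' (hE : c.Emb π) {y : Q} {g h : FreeGroup A} {i : ℕ} (hg : c.On g i)
    (hS : (om π h).c ((π g)⁻¹ * y) ∈ FS (c.S π y)) : ∃ j, c.On (g * h) j := by
  classical
  simpa [mk_toWord] using walk hE y h.toWord g i hg (letters hS)

lemma start {y x : Q} {h : FreeGroup A} (hS : (om π h).c x ∈ FS (c.S π y)) :
    h = 1 ∨ ∃ i, x = (π (c.pw i))⁻¹ * y := by
  classical
  have := letters hS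
  rcases hw : h.toWord with _ | ⟨a, L⟩
  · exact Or.inl (toWord_eq_nil_iff.1 hw)
  · rw [hw] at this
    obtain ⟨j, ⟨_, e⟩ | ⟨_, e⟩⟩ := mem_S (this _ List.mem_cons_self)
    exacts [Or.inr ⟨_, e⟩, Or.inr ⟨_, e⟩]

lemma sep [Finite Q] (hE : c.Emb π) : Sep (om π) (Subgroup.zpowers c.u) := by
  classical
  refine ⟨fun x => if x ∈ Subgroup.zpowers (π c.u) then fb (true, c.S π 1) 1
    else fb (false, Set.univ) 1, fun h => ⟨fun e => ?_, ?_⟩⟩
  · have h1 := congrFun e 1
    rw [sec_apply, om_p_inv, if_pos (Subgroup.one_mem _)] at h1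
    split_ifs at h1 with h2
    · rw [smul_fb_one] at h1
      obtain ⟨j, q, hq⟩ := walk' hE (g := 1) (h := h) (i := 0) (y := 1) ⟨0, by simp [P_zero]⟩
        (by simpa using h1)
      rw [mul_one, Subgroup.inv_mem_iff] at h2
      obtain ⟨r, hr⟩ := h2
      have h3 : c.On h 0 := On.congr ⟨q, by simpa using hq⟩ (hE (q - r) j 0 (by
        rw [one_mul] at hq
        rw [sub_eq_neg_add, zpow_add, mul_assoc, ← hq, map_mul, ← hr]; simp [P_zero]))
      obtain ⟨q', rfl⟩ := h3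
      exact ⟨q', by simp [P_zero]⟩
    · rw [smul_fb, fb_eq] at h1; simp at h1
  · rintro ⟨k, rfl⟩
    simp only [map_zpow]
    refine Perm.zpow_apply_eq_self_of_apply_eq_self (funext fun x => ?_) k
    have h1 : (π c.u)⁻¹ * x ∈ Subgroup.zpowers (π c.u) ↔ x ∈ Subgroup.zpowers (π c.u) :=
      Subgroup.mul_mem_cancel_left _ (Subgroup.inv_mem _ (Subgroup.mem_zpowers _))
    simp only [sec_apply, om_p_inv, h1]
    split_ifs with h2
    · rw [smul_fb_one]
      obtain ⟨j, hj⟩ := mem_powers_iff_mem_zpowers.2 (Subgroup.inv_mem _ h2)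
      have h3 := c.c_P_mem π 1 (c.l + c.l * j)
      have h4 := c.c_P_mem π 1 (0 + c.l * j)
      rw [P_add_mul] at h3 h4
      rw [P_zero, mul_one] at h4
      rw [om_mul, Subgroup.mul_mem_cancel_left _ h4, map_pow] at h3
      simp only at hj
      rw [hj] at h3
      simpa [u] using h3
    · exact smul_fb_one.2 (FS_univ _)

lemma cycAt [Finite Q] (hE : c.Emb π) (y : Q) :
    CycAt π (c.S π y) ((om π (c.u ^ orderOf (π c.u))).c y) := by
  set o := orderOf (π c.u) with ho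
  have opos : 0 < o := orderOf_pos _
  have h0 : π (c.u ^ o) = 1 := by rw [map_pow, pow_orderOf_eq_one]
  have h1 : c.u ^ o = c.pw (c.l * o) := by simpa [P_zero] using (c.P_add_mul 0 o).symm
  have inj : ∀ i < c.l * o, ∀ j < c.l * o, (c.lab π y i).1 = (c.lab π y j).1 → i = j := by
    intro i hi j hj e
    rcases lbl_eq π e with ⟨_, e2⟩ | ⟨e1, e2⟩
    · have e3 : π (c.pw i) = π (c.pw j) := by simpa using e2
      have e4 := (ZMod.natCast_eq_natCast_iff' _ _ _).1 (hE 0 i j (by simpa using e3))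
      rw [c.P_div i, c.P_div j, e4, map_mul, map_mul, mul_left_inj, map_pow, map_pow] at e3
      have e5 := pow_injOn_Iio_orderOf (Nat.div_lt_of_lt_mul hi) (Nat.div_lt_of_lt_mul hj) e3
      rw [← Nat.mod_add_div i c.l, ← Nat.mod_add_div j c.l, e4, e5]
    · have e3 : π (c.pw i) = π (c.pw (j + 1)) := by
        rw [← mul_assoc, ← mul_inv_rev, ← map_mul] at e2
        exact inv_injective (mul_right_cancel e2)
      have e4 := hE 0 i (j + 1) (by simpa using e3)
      have e5 := c.red j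
      rw [Nat.cast_succ] at e4
      rw [← e4, e1] at e5
      simp at e5
  refine ⟨h1 ▸ c.c_P_mem π y _, ⟨_, 0, rfl⟩, ?_, ?_, ⟨_, _, h0, rfl⟩, fun h x hh hS => ?_⟩
  · rintro _ ⟨i, rfl⟩
    have e : c.lab π y i = c.lab π y (i % (c.l * o)) := by
      conv_lhs => rw [← Nat.mod_add_div i (c.l * o), mul_assoc]
      simp only [lab]
      rw [P_add_mul, pow_mul, map_mul, map_pow, h0]
      simp
    rw [e, h1, c_P, ex_rd inj (Nat.mod_lt _ (Nat.mul_pos c.pos opos))]
    exact ex_lt _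
  · rw [h1, c_P]; exact exists_rev _ _ inj
  · rcases start hS with rfl | ⟨i, rfl⟩
    · exact ⟨0, by simp⟩
    · obtain ⟨j, hj⟩ := walk' hE (i := i) ⟨0, by simp⟩ hS
      obtain ⟨q, hq⟩ := hj.move hE (j := i) (by simp [hh])
      have h2 : π c.u ^ q = 1 := by simpa [hh] using (congrArg π hq).symm
      obtain ⟨r, rfl⟩ := orderOf_dvd_iff_zpow_eq_one.2 h2
      have h3 : h = (c.pw i)⁻¹ * (c.u ^ o) ^ r * (c.pw i)⁻¹⁻¹ := by
        rw [inv_inv, mul_assoc, ← zpow_natCast, ← zpow_mul, ← hq]; simp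
      have h4 : (om π (c.u ^ o)).p = 1 := by rw [om_p, h0]; ext; simp
      refine ⟨r, isConj_iff.2 ⟨(om π (c.pw i)⁻¹).c ((π (c.pw i))⁻¹ * y), ?_⟩⟩
      rw [h3, map_mul, map_mul, map_inv _ (c.pw i)⁻¹, conj_c _ (by rw [map_zpow, zpow_p, h4]; simp),
        om_p_inv, map_zpow, zpow_c h4]
      simp

end Cy

theorem cyc_main {A : Type} {z : FreeGroup A} (hz : z ≠ 1) :
    ∃ N : Subgroup (FreeGroup A), N.FiniteIndex ∧
      ∀ (Q : Type) [Group Q] [Finite Q] (π : FreeGroup A →* Q), π.ker ≤ N →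
        Sep (om π) (Subgroup.zpowers z) ∧ ∀ n : ℕ, 0 < n → (∀ q : Q, q ^ n = 1) → ∀ x : Q,
          ∃ (S : Set (Q × A)) (τ : FreeGroup (Q × A)) (j : ℕ), CycAt π S τ ∧ 0 < j ∧
            IsConj (τ ^ j) ((om π (z ^ n)).c x) := by
  obtain ⟨c, g, rfl⟩ := Cy.exists_cy hz
  obtain ⟨N, hN, h⟩ := c.exists_emb
  refine ⟨N, hN, fun Q _ _ π hπ => ⟨(Cy.sep (h Q π hπ)).conj g, fun n hn hq x => ?_⟩⟩
  obtain ⟨j, hj⟩ := orderOf_dvd_of_pow_eq_one (hq (π c.u))
  have h4 : (om π (c.u ^ orderOf (π c.u))).p = 1 := by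
    rw [om_p, map_pow, pow_orderOf_eq_one]; ext; simp
  refine ⟨_, _, j, Cy.cycAt (h Q π hπ) ((π g)⁻¹ * x), Nat.pos_of_mul_pos_left (hj ▸ hn),
    isConj_iff.2 ⟨(om π g).c x, ?_⟩⟩
  rw [conj_pow, map_mul, map_mul, map_inv, hj, pow_mul, map_pow _ _ j,
    conj_c _ (by rw [pow_p, h4, one_pow]), om_p_inv, pow_c h4]

end Pool.Agent.P.MP_67c9d4_al
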