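import Pool.Agent.P.MP_67c9d4_al.Cone
import Pool.Agent.P.MP_67c9d4_al.Cyc

/-! Imbalance of the vertical structure: cycle classes and single-cycle cocycles. -/

namespace Pool.Agent.P.MP_67c9d4_al

open Equiv Finset Wr Multiplicative
open FreeGroup hiding map_mul map_inv map_one

abbrev HH (A : Type) := FreeGroup A × Multiplicative ℤ

/-- Combinatorial data of the sides of the edges. -/
structure Gr (V E A : Type) where
  vert : E × Bool → V
  z : E × Bool → FreeGroup A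
  m : E × Bool → ℤ

/-- Admissible class functions. -/
structure Adm {E B M : Type} [Group B] [AddCommGroup M] (cl : E × Bool → B → B → M) : Prop where
  one : ∀ k, cl k 1 1 = 0
  conj : ∀ k g b b', cl k (g * b * g⁻¹) (g * b' * g⁻¹) = cl k b b'
  anti : ∀ e b b', cl (e, false) b b' = -cl (e, true) b b'

lemma Adm.comp {E B B' M : Type} [Group B] [Group B'] [AddCommGroup M]
    {cl : E × Bool → B' → B' → M} (h : Adm cl) (ψ : B →* B') :
    Adm fun k b b' => cl k (ψ b) (ψ b') :=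
  ⟨fun k => by simp [h.one], fun k g b b' => by simp [h.conj], fun e b b' => h.anti _ _ _⟩

lemma avoid {W : Type} (S : Set W) (s : Finset (FreeGroup W)) (h : ∀ T ∈ s, ∃ l ∉ S, ex l T ≠ 1) :
    ∃ φ : FreeGroup W →* Multiplicative ℤ, (∀ l ∈ S, φ (of l) = 1) ∧ ∀ T ∈ s, φ T ≠ 1 := by
  classical
  induction s using Finset.induction_on with
  | empty => exact ⟨1, by simp, by simp⟩
  | insert T s _ ih =>
    obtain ⟨φ, h1, h2⟩ := ih fun T' hT => h T' (mem_insert_of_mem hT)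
    by_cases h3 : φ T = 1
    · obtain ⟨l, hl, h4⟩ := h T (mem_insert_self _ _)
      refine ⟨φ ^ (s.sup (fun T => (ex l T).toAdd.natAbs) + 1) * ex l, fun a ha => ?_, ?_⟩
      · simp [h1 a ha, ex_of_notMem hl (lt_mem (x := (a, true)) ha), ← lt_true]
        exact h1 a ha
      · intro T' hT
        rcases mem_insert.1 hT with rfl | hT
        · simpa [h3] using h4
        · intro e
          have h5 := Finset.le_sup (f := fun T => (ex l T).toAdd.natAbs) hT
          have h6 := congrArg toAdd e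
          have h7 : (φ T').toAdd ≠ 0 := h2 T' hT
          simp only [MonoidHom.mul_apply, MonoidHom.pow_apply, toAdd_mul, toAdd_pow, toAdd_one,
            nsmul_eq_mul] at h6 h5
          have h8 := congrArg Int.natAbs (eq_neg_of_add_eq_zero_left h6)
          rw [Int.natAbs_mul, Int.natAbs_natCast, Int.natAbs_neg] at h8
          have := Int.natAbs_pos.2 h7
          nlinarith
    · exact ⟨φ, h1, fun T' hT => by
        rcases mem_insert.1 hT with rfl | hT
        exacts [h3, h2 T' hT]⟩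

/-- A cyclic cover with a cocycle that sees only the cycle with labels `S`. -/
lemma exists_eta {W : Type} (S : Set W) {l : W} (hl : l ∈ S) (s : Finset (FreeGroup W))
    (h : ∀ T ∈ s, ∃ l ∉ S, ex l T ≠ 1) :
    ∃ (N : ℕ) (_ : Fact N.Prime) (η : FreeGroup W →* Wr (ZMod N) (Multiplicative ℤ)),
      (∀ b, (η (b ^ N)).p = 1) ∧ (∀ T ∈ s, η (T ^ N) = 1) ∧ ∀ b ∈ FS S, η b = base fun y =>
        if y = 0 then ex l b else if y = 1 then (ex l b)⁻¹ else 1 := by
  classical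
  obtain ⟨φ, h1, h2⟩ := avoid S s h
  obtain ⟨N, hN, hp⟩ := Nat.exists_infinite_primes (s.sup (fun T => (φ T).toAdd.natAbs) + 1)
  haveI : Fact N.Prime := ⟨hp⟩
  let δ : Multiplicative ℤ →* ZMod N → Multiplicative ℤ :=
    { toFun := fun b y => if y = 0 then b else if y = 1 then b⁻¹ else 1
      map_one' := by funext y; simp
      map_mul' := fun a b => by funext y; simp only [Pi.mul_apply]; split_ifs <;> simp [mul_comm] }
  let η : FreeGroup W →* Wr (ZMod N) (Multiplicative ℤ) :=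
    lift fun a => ⟨Equiv.addRight ((φ (of a)).toAdd : ZMod N), δ (ex l (of a))⟩
  have e1 : ∀ b y, (η b).p y = y + ((φ b).toAdd : ZMod N) := by
    intro b
    induction b using FreeGroup.induction_on with
    | C1 => simp
    | of a => simp [η]
    | inv_of a ih => intro y; rw [map_inv, inv_p, Perm.inv_eq_iff_eq, ih]; simp
    | mul a b ha hb => intro y; rw [map_mul, mul_p, Perm.mul_apply, ha, hb]; simp; ring
  have e2 : tot.comp η = 1 := by
    refine FreeGroup.ext_hom _ _ fun a => ?_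
    have : ∀ b : Multiplicative ℤ, ∏ y, δ b y = 1 := fun b => by
      rw [Finset.prod_eq_mul (0 : ZMod N) 1 zero_ne_one] <;> simp +contextual [δ]
    simpa [η, tot_apply] using this _
  have e3 : ∀ b, (η (b ^ N)).p = 1 := fun b => by ext y; rw [e1]; simp
  refine ⟨N, inferInstance, η, e3, fun T hT => ?_, fun b hb => ?_⟩
  · have h3 : ((φ T).toAdd : ZMod N) ≠ 0 := by
      rw [Ne, ZMod.intCast_zmod_eq_zero_iff_dvd, Int.natCast_dvd]
      have h5 := Finset.le_sup (f := fun T => (φ T).toAdd.natAbs) hT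
      exact Nat.not_dvd_of_pos_of_lt (Int.natAbs_pos.2 (h2 T hT)) (by omega)
    refine Wr.ext (e3 T) (funext fun y => ?_)
    rw [map_pow, cyc _ _ (e1 T) h3.isUnit]
    exact DFunLike.congr_fun e2 T
  · refine MonoidHom.eqOn_closure (f := η) (g := base.comp (δ.comp (ex l))) ?_ hb
    rintro _ ⟨a, ha, rfl⟩
    refine Wr.ext ?_ ?_
    · ext y; simp [e1, h1 a ha]
    · simp [η]; rfl

namespace Gr
variable {V E A : Type} (Γ : Gr V E A)

def sd : Sd V (E × Bool) (HH A) :=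
  ⟨Γ.vert, fun k => (Γ.z k, 1), fun k => (Γ.z k ^ Γ.m k, ofAdd 1)⟩

variable {B M : Type} [Group B] [AddCommGroup M]

def tm (cl : E × Bool → B → B → M) (k : E × Bool) (b : B) : M := cl k b (b ^ Γ.m k)

lemma tm_conj {cl : E × Bool → B → B → M} (h : Adm cl) (k : E × Bool) {b b' : B}
    (hb : IsConj b b') : Γ.tm cl k b = Γ.tm cl k b' := by
  obtain ⟨g, rfl⟩ := isConj_iff.1 hb
  rw [tm, tm, conj_zpow, h.conj]

lemma tm_one {cl : E × Bool → B → B → M} (h : Adm cl) (k : E × Bool) : Γ.tm cl k 1 = 0 := by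
  simp [tm, h.one]

variable {Q : Type} [Group Q] (π : FreeGroup A →* Q) (n : ℕ)

def T (k : E × Bool) (x : Q) : FreeGroup (Q × A) := (om π (Γ.z k ^ n)).c x

def supp (k : E × Bool) (x : Q) : Set (Q × A) := {l | ex l (Γ.T π n k x) ≠ 1}

/-- Data attached to the class of cycles at `v` with set of labels `S`. -/
structure Cls (v : V) (S : Set (Q × A)) (τ : FreeGroup (Q × A)) (j : E × Bool → Q → ℤ) : Prop where
  conj : ∀ k x, Γ.vert k = v → Γ.supp π n k x = S → IsConj (τ ^ j k x) (Γ.T π n k x)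
  rev : ∃ m, Sg m ∧ m.comp m = MonoidHom.id _ ∧ m τ = τ⁻¹
  alt : (∀ k x, j k x = 0) ∨ (CycAt π S τ ∧
    (∃ k x, Γ.vert k = v ∧ Γ.z k ≠ 1 ∧ Γ.supp π n k x = S) ∧
    ∀ k x, Γ.supp π n k x ≠ S → Γ.T π n k x = 1 ∨ ∃ l ∉ S, ex l (Γ.T π n k x) ≠ 1)

lemma ex_conj {W : Type} (l : W) {τ b : FreeGroup W} {j : ℤ} (h : IsConj (τ ^ j) b) :
    ex l b = ex l τ ^ j := by
  rw [← map_zpow]; exact (isConj_iff_eq.1 ((ex l).map_isConj h)).symm

lemma ex_ne {S : Set (Q × A)} {τ : FreeGroup (Q × A)} (h : CycAt π S τ) {l : Q × A} (hl : l ∈ S)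
    {j : ℤ} (hj : j ≠ 0) : ex l τ ^ j ≠ 1 := by
  rcases h.exp l hl with e | e <;> rw [e, ← ofAdd_zsmul] <;> simpa using hj

lemma exists_cls (hc : ∀ k x, Γ.z k ≠ 1 → ∃ (S : Set (Q × A)) (τ : FreeGroup (Q × A)) (j : ℕ),
    CycAt π S τ ∧ 0 < j ∧ IsConj (τ ^ j) (Γ.T π n k x)) (v : V) (S : Set (Q × A)) :
    ∃ τ j, Γ.Cls π n v S τ j := by
  have h0 : ∀ k x, Γ.z k = 1 → Γ.T π n k x = 1 := fun k x h => by simp [T, h]
  have h1 : ∀ k x, Γ.z k ≠ 1 → ∃ (τ : FreeGroup (Q × A)) (j : ℕ),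
      CycAt π (Γ.supp π n k x) τ ∧ IsConj (τ ^ j) (Γ.T π n k x) := by
    intro k x hz
    obtain ⟨S, τ, j, h1, h2, h3⟩ := hc k x hz
    rw [← zpow_natCast] at h3
    have : Γ.supp π n k x = S := by
      ext l
      rw [supp, Set.mem_ofPred_eq, ex_conj l h3]
      refine ⟨fun h => by_contra fun hl => h ?_, fun hl => ex_ne π h1 hl (by omega)⟩
      rw [ex_of_notMem hl h1.mem, one_zpow]
    exact ⟨τ, j, this ▸ h1, by simpa using h3⟩
  by_cases h : ∃ k x, Γ.vert k = v ∧ Γ.z k ≠ 1 ∧ Γ.supp π n k x = S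
  · obtain ⟨k₀, x₀, hv, hz, rfl⟩ := h
    obtain ⟨τ, j₀, h2, -⟩ := h1 k₀ x₀ hz
    have h3 : ∀ k x, ∃ q : ℤ, Γ.supp π n k x ⊆ Γ.supp π n k₀ x₀ → IsConj (τ ^ q) (Γ.T π n k x) := by
      intro k x
      by_cases hs : Γ.supp π n k x ⊆ Γ.supp π n k₀ x₀
      · by_cases hz : Γ.z k = 1
        · exact ⟨0, fun _ => by simp [h0 k x hz]⟩
        · obtain ⟨τ', j, h4, h5⟩ := h1 k x hz
          obtain ⟨h, x', h6, rfl⟩ := h4.loop
          obtain ⟨q, hq⟩ := h2.conj h x' h6 (FS_mono hs h4.mem)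
          refine ⟨q * j, fun _ => IsConj.trans ?_ h5⟩
          rw [zpow_mul, zpow_natCast]
          exact hq.pow j
      · exact ⟨0, fun h => absurd h hs⟩
    choose j hj using h3
    refine ⟨τ, j, fun k x _ e => hj k x e.le, h2.rev, Or.inr ⟨h2, ⟨k₀, x₀, hv, hz, rfl⟩, ?_⟩⟩
    intro k x hne
    by_cases hs : Γ.supp π n k x ⊆ Γ.supp π n k₀ x₀
    · left
      by_contra hT
      refine hne (hs.antisymm fun l hl => ?_)
      rw [supp, Set.mem_ofPred_eq, ex_conj l (hj k x hs)]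
      refine ex_ne π h2 hl fun e => hT ?_
      simpa [e, eq_comm] using hj k x hs
    · right
      obtain ⟨l, h4, h5⟩ := Set.not_subset.1 hs
      exact ⟨l, h5, h4⟩
  · refine ⟨1, fun _ _ => 0, fun k x hv e => ?_, ⟨MonoidHom.id _, fun x => ⟨x, rfl⟩, rfl, by simp⟩,
      Or.inl fun _ _ => rfl⟩
    have : Γ.z k = 1 := by_contra fun hz => h ⟨k, x, hv, hz, e⟩
    simp [h0 k x this]

/-- The vertical structure. -/
def vs : HH A →* Wr Q (FreeGroup (Q × A)) := (om π).comp (MonoidHom.fst _ _)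

variable {π n}

lemma om_pow_p (hn : ∀ q : Q, q ^ n = 1) (h : FreeGroup A) : (om π (h ^ n)).p = 1 := by
  rw [om_p, map_pow, hn]; ext; simp

lemma vs_per (hn : ∀ q : Q, q ^ n = 1) (r : ℕ) : Per (n * r) (vs π) := fun h => by
  have : (om π (h.1 ^ (n * r))).p = 1 := by rw [mul_comm, pow_mul, om_pow_p hn]
  exact this

variable [Fintype E] [DecidableEq V] [Fintype Q]

lemma imb_vs (hn : ∀ q : Q, q ^ n = 1) (cl : E × Bool → FreeGroup (Q × A) → FreeGroup (Q × A) → M)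
    (r : ℕ) (v : V) : imb Γ.sd cl (n * r) v (vs π) =
      ∑ x, ∑ k ∈ univ.filter (Γ.vert · = v), Γ.tm cl k (Γ.T π n k x ^ r) := by
  refine Finset.sum_congr rfl fun x _ => Finset.sum_congr rfl fun k _ => ?_
  have h1 : vs π (Γ.sd.a k ^ (n * r)) = om π (Γ.z k ^ n) ^ r := by
    rw [← map_pow, ← pow_mul]; rfl
  have h2 : vs π (Γ.sd.s k ^ (n * r)) = (om π (Γ.z k ^ n) ^ r) ^ Γ.m k := by
    rw [← map_pow, ← pow_mul, ← map_zpow, ← zpow_natCast (Γ.z k), ← zpow_mul, mul_comm _ (Γ.m k),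
      zpow_mul, zpow_natCast]; rfl
  rw [h1, h2, zpow_c (by rw [pow_p, om_pow_p hn, one_pow]), pow_c (om_pow_p hn _)]
  rfl

variable (π n)

open Classical in
noncomputable def DS (cl : E × Bool → B → B → M) (v : V) (S : Set (Q × A))
    (j : E × Bool → Q → ℤ) (b : B) : M :=
  ∑ x, ∑ k ∈ univ.filter (Γ.vert · = v), if Γ.supp π n k x = S then Γ.tm cl k (b ^ j k x) else 0

variable {π n}

lemma DS_comp {B' : Type} [Group B'] (cl : E × Bool → B' → B' → M) (ψ : B →* B') (v : V)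
    (S : Set (Q × A)) (j : E × Bool → Q → ℤ) (b : B) :
    Γ.DS π n (fun k b b' => cl k (ψ b) (ψ b')) v S j b = Γ.DS π n cl v S j (ψ b) := by
  simp [DS, tm]

lemma DS_zero {cl : E × Bool → B → B → M} (h : Adm cl) (v : V) (S : Set (Q × A))
    {j : E × Bool → Q → ℤ} (hj : ∀ k x, j k x = 0) (b : B) : Γ.DS π n cl v S j b = 0 := by
  simp [DS, hj, Γ.tm_one h]

lemma imb_dec [Fintype A] (hn : ∀ q : Q, q ^ n = 1) {cl : E × Bool → B → B → M} (h : Adm cl)
    (ψ : FreeGroup (Q × A) →* B) (r : ℕ) (v : V) {τ : Set (Q × A) → FreeGroup (Q × A)}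
    {j : Set (Q × A) → E × Bool → Q → ℤ} (hc : ∀ S, Γ.Cls π n v S (τ S) (j S)) :
    imb Γ.sd (fun k b b' => cl k (ψ b) (ψ b')) (n * r) v (vs π) =
      ∑ S, Γ.DS π n cl v S (j S) (ψ (τ S) ^ r) := by
  rw [Γ.imb_vs hn]
  simp only [DS]
  rw [Finset.sum_comm (s := (univ : Finset (Set (Q × A))))]
  refine Finset.sum_congr rfl fun x _ => ?_
  rw [Finset.sum_comm (s := (univ : Finset (Set (Q × A))))]
  refine Finset.sum_congr rfl fun k hk => ?_
  rw [Finset.sum_ite_eq, if_pos (mem_univ _),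
    Γ.tm_conj (h.comp ψ) k (((hc _).conj k x (mem_filter.1 hk).2 rfl).pow r).symm]
  simp only [tm, map_zpow, map_pow, ← zpow_natCast, ← zpow_mul, mul_comm (r : ℤ)]

lemma stepA (hn : ∀ q : Q, q ^ n = 1) {v : V} {S : Set (Q × A)} {τ : FreeGroup (Q × A)}
    {j : E × Bool → Q → ℤ} (hc : Γ.Cls π n v S τ j) : ∃ N : ℕ, 0 < N ∧ ∀ r : ℕ, N ∣ r →
      ∀ (M : Type) [AddCommGroup M] (cl : E × Bool → Multiplicative ℤ → Multiplicative ℤ → M),
        Adm cl → Γ.DS π n cl v S j (ofAdd (r : ℤ)) + Γ.DS π n cl v S j (ofAdd (r : ℤ))⁻¹ ∈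
          Cone Γ.sd cl (n * r) := by
  classical
  rcases hc.alt with h0 | ⟨h1, -, h2⟩
  · exact ⟨1, one_pos, fun r _ M _ cl h => by simp [Γ.DS_zero h _ _ h0]⟩
  obtain ⟨l, hl⟩ := h1.ne
  obtain ⟨N, hN, η, e1, e2, e3⟩ := exists_eta S hl
    ((univ.image fun p : (E × Bool) × Q => Γ.T π n p.1 p.2).filter fun T => ∃ l ∉ S, ex l T ≠ 1)
    fun T hT => (mem_filter.1 hT).2
  refine ⟨N, hN.out.pos, ?_⟩
  rintro _ ⟨r, rfl⟩ M _ cl h
  have e4 : ∀ b, (η (b ^ (N * r))).p = 1 := fun b => by rw [mul_comm, pow_mul, e1]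
  have := flat_mem (D := Γ.sd) cl v (vs_per (π := π) hn 1) η e4
  rw [Γ.imb_vs hn, mul_one] at this
  convert this using 1
  simp only [DS, ← Finset.sum_add_distrib, pow_one]
  refine Finset.sum_congr rfl fun x _ => Finset.sum_congr rfl fun k hk => ?_
  have e5 : Γ.tm (fun k b b' => ∑ y, cl k ((η (b ^ (N * r))).c y) ((η (b' ^ (N * r))).c y)) k
      (Γ.T π n k x) = ∑ y, Γ.tm cl k ((η (Γ.T π n k x ^ (N * r))).c y) := by
    refine Finset.sum_congr rfl fun y _ => ?_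
    rw [tm, ← zpow_c (e4 _), ← map_zpow, ← zpow_natCast (_ ^ Γ.m k), ← zpow_mul, mul_comm (Γ.m k),
      zpow_mul, zpow_natCast]
  rw [e5]
  split_ifs with hS
  · obtain ⟨g, hg⟩ := isConj_iff.1 ((hc.conj k x (mem_filter.1 hk).2 hS).pow (N * r))
    have e6 := e3 _ ((FS S).pow_mem ((FS S).zpow_mem h1.mem (j k x)) (N * r))
    rw [← hg]
    simp only [map_mul, map_inv, conj_c _ (e4 _), mul_inv_cancel_comm]
    rw [Equiv.sum_comp (η g).p⁻¹ fun y => Γ.tm cl k ((η ((τ ^ j k x) ^ (N * r))).c y), e6,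
      Finset.sum_eq_add (0 : ZMod N) 1 zero_ne_one]
    · simp only [base_c, if_true, one_ne_zero, if_false, map_pow, map_zpow]
      have e7 : (ofAdd (1 : ℤ) ^ j k x) ^ (N * r) = ofAdd ((N * r : ℕ) : ℤ) ^ j k x := by
        rw [← zpow_natCast, ← zpow_mul, mul_comm, zpow_mul, ← ofAdd_zsmul]; simp
      rcases h1.exp l hl with e | e
      · rw [e, e7, inv_zpow]
      · rw [e, ofAdd_neg, inv_zpow (ofAdd (1 : ℤ)), inv_pow, e7, inv_inv, inv_zpow, add_comm]
    · intro y _ hy; simp [hy.1, hy.2, Γ.tm_one h]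
    · simp
    · simp
  · have : η (Γ.T π n k x ^ (N * r)) = 1 := by
      rcases h2 k x hS with e | e
      · simp [e]
      · rw [pow_mul, map_pow, e2 _ (mem_filter.2 ⟨mem_image_of_mem _ (mem_univ (k, x)), e⟩), one_pow]
    simp [this, Γ.tm_one h, -map_pow]

end Gr

end Pool.Agent.P.MP_67c9d4_al
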