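import Pool.Agent.P.MP_67c9d4_al.BalA

/-! The vertical structures can be completed to a balanced family. -/

namespace Pool.Agent.P.MP_67c9d4_al

open Equiv Finset Wr Multiplicative
open FreeGroup hiding map_mul map_inv map_one

section
variable {V E H X B M : Type} [Fintype V] [DecidableEq V] [Fintype E] [Group H] [Fintype X]
  [Group B] [AddCommGroup M] (D : Sd V (E × Bool) H)

lemma sum_imb (cl : E × Bool → B → B → M) (n : ℕ) (σ : V → H →* Wr X B) :
    ∑ v, imb D cl n v (σ v) = ∑ e, (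
      ∑ x, cl (e, true) ((σ (D.vert (e, true)) (D.a (e, true) ^ n)).c x)
        ((σ (D.vert (e, true)) (D.s (e, true) ^ n)).c x) +
      ∑ x, cl (e, false) ((σ (D.vert (e, false)) (D.a (e, false) ^ n)).c x)
        ((σ (D.vert (e, false)) (D.s (e, false) ^ n)).c x)) := by
  have : ∑ v, imb D cl n v (σ v) = ∑ k, ∑ x, cl k ((σ (D.vert k) (D.a k ^ n)).c x)
      ((σ (D.vert k) (D.s k ^ n)).c x) := by
    rw [← Finset.sum_fiberwise univ D.vert]
    refine Finset.sum_congr rfl fun v _ => ?_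
    rw [imb]
    simp only [pt]
    rw [Finset.sum_comm]
    refine Finset.sum_congr rfl fun k hk => ?_
    rw [(mem_filter.1 hk).2]
  rw [this, Fintype.sum_prod_type]
  simp only [Fintype.sum_bool]

lemma bal_of_conj {cl : E × Bool → B → B → M} (h : Adm cl) {n : ℕ} {σ : V → H →* Wr X B}
    (hp : ∀ v, Per n (σ v)) (u : E → Wr X B)
    (ha : ∀ e, σ (D.vert (e, true)) (D.a (e, true)) =
      u e * σ (D.vert (e, false)) (D.a (e, false)) * (u e)⁻¹)
    (hs : ∀ e, σ (D.vert (e, true)) (D.s (e, true)) =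
      u e * σ (D.vert (e, false)) (D.s (e, false)) * (u e)⁻¹) :
    ∑ v, imb D cl n v (σ v) = 0 := by
  rw [sum_imb]
  refine Finset.sum_eq_zero fun e _ => ?_
  rw [map_pow, map_pow, ha, hs, conj_pow, conj_pow, ← map_pow, ← map_pow]
  simp only [conj_c _ (hp _ _), h.conj, h.anti, Finset.sum_neg_distrib]
  rw [Equiv.sum_comp (u e).p⁻¹ fun x => cl (e, true)
    ((σ (D.vert (e, false)) (D.a (e, false) ^ n)).c x)
    ((σ (D.vert (e, false)) (D.s (e, false) ^ n)).c x), add_neg_cancel]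

end

/-- The vertex groups inside the ambient group. -/
structure GD {V E A : Type} (Γ : Gr V E A) (G : Type) [Group G] where
  ι : V → HH A →* G
  χ : G →* Multiplicative ℤ
  ε : E → G
  hχ : ∀ v h, χ (ι v h) = h.2
  ha : ∀ e, ι (Γ.vert (e, true)) (Γ.sd.a (e, true)) =
    ε e * ι (Γ.vert (e, false)) (Γ.sd.a (e, false)) * (ε e)⁻¹
  hs : ∀ e, ι (Γ.vert (e, true)) (Γ.sd.s (e, true)) =
    ε e * ι (Γ.vert (e, false)) (Γ.sd.s (e, false)) * (ε e)⁻¹
  vrc : ∀ k, Γ.z k ≠ 1 → ∃ (K : Subgroup G) (_ : K.FiniteIndex) (f : K →* Multiplicative ℤ)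
    (h : ι (Γ.vert k) (Γ.z k, 1) ∈ K), f ⟨_, h⟩ = ofAdd 1

lemma mem_of_smul {G : Type} [Group G] {K : Subgroup G} {g : G} :
    g • ((1 : G) : G ⧸ K) = ((1 : G) : G ⧸ K) ↔ g ∈ K := by
  change ((g * 1 : G) : G ⧸ K) = _ ↔ _
  rw [QuotientGroup.eq]; simp

namespace Gr
variable {V E A G : Type} [Fintype V] [DecidableEq V] [Fintype E] [Group G] {Γ : Gr V E A}
  {Q : Type} [Group Q] [Fintype Q] {π : FreeGroup A →* Q} {n : ℕ}

lemma stepB (X : GD Γ G) (hn : ∀ q : Q, q ^ n = 1) (hn0 : 0 < n) (hπ : Function.Surjective π)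
    (v : V) (k₀ : E × Bool) (x₀ : Q) (K : Subgroup G) [K.FiniteIndex] (f : K →* Multiplicative ℤ)
    (hz : X.ι v (Γ.z k₀, 1) ∈ K) (hf : f ⟨_, hz⟩ = ofAdd 1)
    (hK : ∀ h, π h = 1 → X.ι v (h, 1) ∈ K) :
    ∃ R : ℕ, 0 < R ∧ ∀ r, 0 < r → R ∣ r → ∃ φ : FreeGroup (Q × A) →* Multiplicative ℤ,
      φ (Γ.T π n k₀ x₀) ≠ 1 ∧ ∀ (M : Type) [AddCommGroup M]
        (cl : E × Bool → Multiplicative ℤ → Multiplicative ℤ → M), Adm cl →
        -imb Γ.sd (fun k b b' => cl k (φ b) (φ b')) (n * r) v (vs π) ∈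
          Cone Γ.sd cl (n * r) := by
  classical
  haveI := Fintype.ofFinite (G ⧸ K)
  refine ⟨Nat.card (Perm (G ⧸ K)), Nat.card_pos, fun r hr hR => ?_⟩
  have h1 : ∀ (g : G) (y : G ⧸ K), g ^ (n * r) • y = y := fun g y => by
    obtain ⟨c, rfl⟩ := hR
    have : MulAction.toPermHom G (G ⧸ K) (g ^ (n * (Nat.card (Perm (G ⧸ K)) * c))) = 1 := by
      rw [mul_left_comm, map_pow, pow_mul, pow_card_eq_one', one_pow]
    exact DFunLike.congr_fun this y
  set t := X.ι v (1, ofAdd 1) with ht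
  have h2 : t ^ (n * r) ∈ K := mem_of_smul.1 (h1 _ _)
  let f' : K →* Multiplicative ℤ :=
    f ^ (n * r) * (X.χ.comp K.subtype) ^ (-(f ⟨_, h2⟩).toAdd)
  let ρ := ind K f'
  have hρ : ∀ g, (ρ (g ^ (n * r))).p = 1 := fun g => by ext y; exact h1 g y
  have hp : ∀ w, Per (n * r) (ρ.comp (X.ι w)) := fun w h => by
    rw [MonoidHom.comp_apply, map_pow]; exact hρ _
  let P : G ⧸ K → Prop := fun y => (ρ (t ^ (n * r))).c y = 1
  have hP : ∀ h y, P ((ρ (X.ι v h)).p y) ↔ P y := fun h y => by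
    have e : X.ι v h * t ^ (n * r) * (X.ι v h)⁻¹ = t ^ (n * r) := by
      rw [ht, ← map_pow, ← map_inv, ← map_mul, ← map_mul]; congr 1; ext <;> simp
    have := conj_c (ρ (X.ι v h)) (hρ t) ((ρ (X.ι v h)).p y)
    rw [← map_inv, ← map_mul, ← map_mul, e, mul_inv_cancel_comm] at this
    simp only [P]
    rw [this]; simp
  have hP1 : P ((1 : G) : G ⧸ K) := by
    have := ind_c_one K f' ⟨_, h2⟩
    have e : f' ⟨_, h2⟩ = 1 := toAdd.injective (by simp [f', ht, X.hχ, mul_comm])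
    exact this.trans e
  let σ₂ : HH A →* Wr (G ⧸ K) (Multiplicative ℤ) :=
    (ρ.comp (X.ι v)).comp ((MonoidHom.inl _ _).comp (MonoidHom.fst _ _))
  have hσ₂ : ∀ h, σ₂ h = ρ (X.ι v (h.1, 1)) := fun _ => rfl
  have hp₂ : Per (n * r) σ₂ := fun h => by
    rw [map_pow, hσ₂, ← map_pow]; exact hρ _
  let σ₃ := restr σ₂ P fun h y => hP _ y
  obtain ⟨g₀, rfl⟩ := hπ x₀
  let π' : Q → G ⧸ K := fun x => X.ι v (Function.surjInv hπ x * g₀⁻¹, 1) • ((1 : G) : G ⧸ K)
  have hπ' : ∀ h, π' (π h) = X.ι v (h * g₀⁻¹, 1) • ((1 : G) : G ⧸ K) := fun h => by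
    have := hK ((h * g₀⁻¹)⁻¹ * (Function.surjInv hπ (π h) * g₀⁻¹)) (by
      simp [Function.surjInv_eq hπ])
    rw [← mem_of_smul] at this
    conv_rhs => rw [← this, smul_smul, ← map_mul]
    simp [π', mul_assoc]
  let α : HH A →* Perm Q := (MulAction.toPermHom Q Q).comp (π.comp (MonoidHom.fst _ _))
  have heq : ∀ h x, π' (α h x) = (σ₃ h).p (π' x) := fun h x => by
    obtain ⟨g, rfl⟩ := hπ x
    have : α h (π g) = π (h.1 * g) := by simp [α]
    rw [this, hπ', hπ', restr_p, hσ₂, ind_p, smul_smul, ← map_mul]; simp [mul_assoc]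
  have hPπ : ∀ x, P (π' x) := fun x => by
    have := (hP (Function.surjInv hπ x * g₀⁻¹, 1) _).2 hP1
    rwa [ind_p] at this
  let φ : FreeGroup (Q × A) →* Multiplicative ℤ :=
    lift fun l => (ρ (X.ι v (of l.2, 1))).c (π' l.1)
  have hφ : (push φ).comp (vs π) = pull α σ₃ π' heq := by
    have : (push φ).comp (om π) = (pull α σ₃ π' heq).comp (MonoidHom.inl _ _) := by
      refine FreeGroup.ext_hom _ _ fun a => Wr.ext ?_ (funext fun x => ?_)
      · ext x; simp [om, α]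
      · simp [om, φ, σ₃, hPπ, hσ₂]
    exact MonoidHom.ext fun h => DFunLike.congr_fun this h.1
  refine ⟨φ, fun h0 => ?_, fun M _ cl h => ?_⟩
  · have e1 := congrArg (fun w => w.c (π g₀)) (DFunLike.congr_fun hφ (Γ.z k₀ ^ (n * r), 1))
    have e2 : (vs π (Γ.z k₀ ^ (n * r), 1)).c (π g₀) = Γ.T π n k₀ (π g₀) ^ r := by
      rw [T, ← pow_c (om_pow_p hn _), ← map_pow, ← pow_mul]; rfl
    have e3 := ind_c_one K f' (⟨_, hz⟩ ^ (n * r))
    have e4 : ((⟨_, hz⟩ ^ (n * r) : K) : G) = X.ι v (Γ.z k₀ ^ (n * r), 1) := by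
      rw [SubgroupClass.coe_pow, ← map_pow]; simp
    simp only [MonoidHom.comp_apply, push_c, pull_c, σ₃, restr_c, e2, map_pow φ, h0, one_pow,
      if_pos (hPπ _), hσ₂, hπ', mul_inv_cancel] at e1
    rw [show ((1, 1) : HH A) = 1 from rfl, map_one, one_smul, if_pos hP1, ← e4] at e1
    have e5 := congrArg toAdd (e1.trans e3)
    rw [map_pow] at e5
    simp [f', hf, X.hχ, hn0.ne', hr.ne'] at e5
  · rw [← imb_push, hφ]
    have hp₃ : Per (n * r) σ₃ := fun g => by rw [restr_p]; exact hp₂ g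
    refine pull_neg_mem h.one v hp₃ α (fun g => ?_) π' heq ?_
    · ext x; simp [α, pow_mul, hn]
    have e1 := bal_of_conj Γ.sd h hp (fun e => ρ (X.ε e))
      (fun e => by rw [← map_inv]; exact (congrArg ρ (X.ha e)).trans (by rw [map_mul, map_mul]; rfl))
      (fun e => by rw [← map_inv]; exact (congrArg ρ (X.hs e)).trans (by rw [map_mul, map_mul]; rfl))
    have e2 := neg_mem_of_sum univ _ (fun w _ => imb_mem (D := Γ.sd) cl w (hp w))
      (by rw [e1, neg_zero]; exact AddSubmonoid.zero_mem _) (mem_univ v)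
    have e3 := restr_mem (D := Γ.sd) h.one v (hp v) (fun y => ¬P y) fun g y => (hP g y).not
    refine neg_mem_of_add e3 ?_
    convert e2 using 2
    rw [imb, imb, ← Finset.sum_filter_add_sum_filter_not univ P (pt _ _ _ _ (ρ.comp _))]
    congr 1
    · rw [Finset.sum_filter]
      refine Finset.sum_congr rfl fun y _ => ?_
      split_ifs with hy
      · refine Finset.sum_congr rfl fun k _ => ?_
        have e4 : Γ.sd.s k ^ (n * r) = ((Γ.sd.s k).1, 1) ^ (n * r) * (1, ofAdd 1) ^ (n * r) := by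
          ext <;> simp [sd]
        have e5 : (ρ (X.ι v (Γ.sd.s k ^ (n * r)))).c y = (σ₂ (Γ.sd.s k ^ (n * r))).c y := by
          conv_lhs => rw [e4, map_mul, map_mul, mul_c, map_pow (X.ι v), map_pow (X.ι v), hρ]
          rw [inv_one, Perm.one_apply, ← ht, hy, mul_one, ← map_pow, hσ₂]
          simp
        simp only [σ₃, restr_c, if_pos hy, MonoidHom.comp_apply, e5]
        congr 2
      · simp [pt, σ₃, hy, h.one, -map_pow]
    · congr

variable [Fintype A]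

lemma stepC (X : GD Γ G) (hn : ∀ q : Q, q ^ n = 1) (hn0 : 0 < n) (hπ : Function.Surjective π)
    (hV : ∀ k, Γ.z k ≠ 1 → ∃ (K : Subgroup G) (_ : K.FiniteIndex) (f : K →* Multiplicative ℤ)
      (h : X.ι (Γ.vert k) (Γ.z k, 1) ∈ K), f ⟨_, h⟩ = ofAdd 1 ∧
        ∀ h, π h = 1 → X.ι (Γ.vert k) (h, 1) ∈ K)
    {v : V} {τ : Set (Q × A) → FreeGroup (Q × A)} {j : Set (Q × A) → E × Bool → Q → ℤ}
    (hc : ∀ S, Γ.Cls π n v S (τ S) (j S)) (S : Set (Q × A)) :
    ∃ R : ℕ, 0 < R ∧ ∀ r : ℕ, 0 < r → R ∣ r → ∀ (M : Type) [AddCommGroup M]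
      (cl : E × Bool → Multiplicative ℤ → Multiplicative ℤ → M), Adm cl →
      -(Γ.DS π n cl v S (j S) (ofAdd (r : ℤ)) + Γ.DS π n cl v S (j S) (ofAdd (r : ℤ))⁻¹) ∈
        Cone Γ.sd cl (n * r) := by
  rcases (hc S).alt with h0 | ⟨-, ⟨k, x, rfl, hz, hS⟩, -⟩
  · exact ⟨1, one_pos, fun r _ _ M _ cl h => by simp [Γ.DS_zero h _ _ h0]⟩
  obtain ⟨K, _, f, h1, h2, h3⟩ := hV k hz
  obtain ⟨R, hR, h4⟩ := stepB X hn hn0 hπ _ k x K f h1 h2 h3
  choose N hN h5 using fun S => Γ.stepA hn (hc S)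
  set r := R * ∏ S, N S with hr
  have r0 : 0 < r := Nat.mul_pos hR (Finset.prod_pos fun S _ => hN S)
  have rd : ∀ S, N S ∣ r := fun S => (Finset.dvd_prod_of_mem N (mem_univ S)).mul_left R
  obtain ⟨φ, h6, h7⟩ := h4 r r0 (dvd_mul_right _ _)
  have h8 : (φ (τ S)).toAdd ≠ 0 := fun e => h6 (by
    rw [← isConj_iff_eq.1 (φ.map_isConj ((hc S).conj k x rfl hS)), map_zpow,
      show φ (τ S) = 1 from e, one_zpow])
  have h9 : ∀ (M : Type) [AddCommGroup M]
      (cl : E × Bool → Multiplicative ℤ → Multiplicative ℤ → M), Adm cl →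
      -(Γ.DS π n cl (Γ.vert k) S (j S) (φ (τ S) ^ r) +
        Γ.DS π n cl (Γ.vert k) S (j S) (φ (τ S) ^ r)⁻¹) ∈ Cone Γ.sd cl (n * r) := by
    intro M _ cl h
    refine neg_mem_of_sum univ (fun S => Γ.DS π n cl (Γ.vert k) S (j S) (φ (τ S) ^ r) +
        Γ.DS π n cl (Γ.vert k) S (j S) (φ (τ S) ^ r)⁻¹) (fun S' _ => ?_) ?_ (mem_univ S)
    · have := cone_push cl _ (zpowersHom _ (φ (τ S'))) (h5 S' r (rd S') M _ (h.comp _))
      simp only [DS_comp] at this
      simpa using this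
    · have e1 := h7 M cl h
      have e2 := cone_push cl _ invMonoidHom (h7 M _ (h.comp invMonoidHom))
      rw [Γ.imb_dec hn (h.comp invMonoidHom) φ r _ hc] at e2
      rw [Γ.imb_dec hn h φ r _ hc] at e1
      rw [Finset.sum_add_distrib, neg_add]
      refine AddSubmonoid.add_mem _ e1 ?_
      simp only [DS_comp] at e2
      simpa using e2
  refine ⟨r * (φ (τ S)).toAdd.natAbs, Nat.mul_pos r0 (Int.natAbs_pos.2 h8), ?_⟩
  rintro _ hr' ⟨c, rfl⟩ M _ cl h
  have c0 : 0 < (φ (τ S)).toAdd.natAbs * c := by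
    rw [mul_assoc] at hr'; exact Nat.pos_of_mul_pos_left hr'
  refine neg_mem_of_smul c0 (h5 S _ (((rd S).mul_right _).mul_right _) M cl h) ?_
  have e1 := cone_push cl _ (zpowersHom _ (ofAdd ((φ (τ S)).toAdd.sign * c)))
    (h9 M _ (h.comp _))
  have e2 : zpowersHom _ (ofAdd ((φ (τ S)).toAdd.sign * c)) (φ (τ S) ^ r) =
      ofAdd ((r * (φ (τ S)).toAdd.natAbs * c : ℕ) : ℤ) := by
    refine toAdd.injective ?_
    simp only [zpowersHom_apply, toAdd_zpow, toAdd_pow, toAdd_ofAdd, nsmul_eq_mul, smul_eq_mul]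
    push_cast
    rw [← Int.sign_mul_self_eq_abs]; ring
  rw [DS_comp, DS_comp, map_inv, e2] at e1
  have e3 := divide cl c0 e1
  rwa [smul_neg, mul_assoc n, ← mul_assoc r] at e3

lemma stepD (X : GD Γ G) (hn : ∀ q : Q, q ^ n = 1) (hn0 : 0 < n) (hπ : Function.Surjective π)
    (hV : ∀ k, Γ.z k ≠ 1 → ∃ (K : Subgroup G) (_ : K.FiniteIndex) (f : K →* Multiplicative ℤ)
      (h : X.ι (Γ.vert k) (Γ.z k, 1) ∈ K), f ⟨_, h⟩ = ofAdd 1 ∧
        ∀ h, π h = 1 → X.ι (Γ.vert k) (h, 1) ∈ K)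
    (hc : ∀ v S, ∃ τ j, Γ.Cls π n v S τ j) :
    ∃ r : ℕ, 0 < r ∧ ∀ (M : Type) [AddCommGroup M]
      (cl : E × Bool → FreeGroup (Q × A) → FreeGroup (Q × A) → M), Adm cl → ∀ v,
      -imb Γ.sd cl (n * r) v (vs π) ∈ Cone Γ.sd cl (n * r) := by
  classical
  choose τ j hc using hc
  choose R hR h1 using fun v S => stepC X hn hn0 hπ hV (hc v) S
  set r := ∏ v, ∏ S, R v S
  have r0 : 0 < r := Finset.prod_pos fun v _ => Finset.prod_pos fun S _ => hR v S
  refine ⟨r, r0, fun M _ cl h v => ?_⟩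
  have rd : ∀ S, R v S ∣ r := fun S => (Finset.dvd_prod_of_mem (R v) (mem_univ S)).trans
    (Finset.dvd_prod_of_mem (fun v => ∏ S, R v S) (mem_univ v))
  haveI : Finite {m : FreeGroup (Q × A) →* FreeGroup (Q × A) // Sg m} := by
    refine Finite.of_injective (fun m l => (m.2 (l, true)).choose) fun m m' e => ?_
    refine Subtype.ext (FreeGroup.ext_hom _ _ fun l => ?_)
    rw [← lt_true, (m.2 (l, true)).choose_spec, (m'.2 (l, true)).choose_spec]
    exact congrArg lt (congrFun e l)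
  haveI := Fintype.ofFinite {m : FreeGroup (Q × A) →* FreeGroup (Q × A) // Sg m}
  let I : {m : FreeGroup (Q × A) →* FreeGroup (Q × A) // Sg m} → M := fun m =>
    imb Γ.sd (fun k b b' => cl k (m.1 b) (m.1 b')) (n * r) v (vs π)
  have hI : ∀ m, I m ∈ Cone Γ.sd cl (n * r) := fun m =>
    cone_push cl _ m.1 (imb_mem _ v (vs_per hn r))
  suffices hs : -(∑ m, I m + ∑ m, I m) ∈ Cone Γ.sd cl (n * r) by
    have := neg_mem_of_sum univ I (fun m _ => hI m)
      (neg_mem_of_add (AddSubmonoid.sum_mem _ fun m _ => hI m) hs)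
      (mem_univ ⟨MonoidHom.id _, fun x => ⟨x, rfl⟩⟩)
    simpa only [I, MonoidHom.id_apply] using this
  simp only [I, Γ.imb_dec hn h _ r v (hc v)]
  rw [Finset.sum_comm, ← Finset.sum_add_distrib, ← Finset.sum_neg_distrib]
  refine AddSubmonoid.sum_mem _ fun S _ => ?_
  obtain ⟨m₀, m1, m2, m3⟩ := (hc v S).rev
  let c : {m : FreeGroup (Q × A) →* FreeGroup (Q × A) // Sg m} →
      {m : FreeGroup (Q × A) →* FreeGroup (Q × A) // Sg m} := fun m => ⟨m.1.comp m₀, fun x => by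
    obtain ⟨x', hx⟩ := m1 x
    rw [MonoidHom.comp_apply, hx]; exact m.2 x'⟩
  have hc' : Function.Involutive c := fun m => Subtype.ext (by
    simp only [c]; rw [MonoidHom.comp_assoc, m2, MonoidHom.comp_id])
  nth_rewrite 2 [← Equiv.sum_comp hc'.toPerm]
  rw [← Finset.sum_add_distrib, ← Finset.sum_neg_distrib]
  refine AddSubmonoid.sum_mem _ fun m _ => ?_
  have := cone_push cl _ (zpowersHom _ (m.1 (τ v S))) (h1 v S r r0 (rd S) M _ (h.comp _))
  simp only [DS_comp] at this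
  simpa [c, m3] using this

end Gr

end Pool.Agent.P.MP_67c9d4_al
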