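import Pool.Agent.P.MP_67c9d4_al.BalB

/-! Wreath product representations of the vertex groups that are conjugate on the edge groups. -/

namespace Pool.Agent.P.MP_67c9d4_al

open Equiv Finset Wr Multiplicative
open FreeGroup hiding map_mul map_inv map_one

lemma fib_perm {X T : Type} [Fintype X] (f f' : X → T) [DecidableEq T]
    (h : ∀ t, (univ.filter fun s => f s = t).card = (univ.filter fun s => f' s = t).card) :
    ∃ g : Perm X, ∀ s, f' (g s) = f s := by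
  have : ∀ t, Nonempty ({s // f s = t} ≃ {s // f' s = t}) := fun t =>
    ⟨Fintype.equivOfCardEq (by rw [Fintype.card_subtype, Fintype.card_subtype, h])⟩
  exact ⟨Equiv.ofFiberEquiv fun t => (this t).some, fun s => Equiv.ofFiberEquiv_map _ s⟩

lemma fi_comap {G H : Type} [Group G] [Group H] (K : Subgroup G) [K.FiniteIndex] (f : H →* G) :
    (K.comap f).FiniteIndex :=
  ⟨by rw [Subgroup.index_comap]; exact (K.subgroupOf f.range).index_ne_zero_of_finite⟩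

lemma Sep.comp {X W H H' : Type} [Group H] [Group H'] {σ : H →* Wr X (FreeGroup W)}
    {Λ : Subgroup H} (h : Sep σ Λ) (f : H' →* H) : Sep (σ.comp f) (Λ.comap f) :=
  h.imp fun _ hω g => hω (f g)

/-- The class of a pair under simultaneous conjugation. -/
def cls {B : Type} [Group B] (b b' : B) : Set (B × B) :=
  Set.range fun g => (g * b * g⁻¹, g * b' * g⁻¹)

lemma cls_conj {B : Type} [Group B] (g b b' : B) : cls (g * b * g⁻¹) (g * b' * g⁻¹) = cls b b' := by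
  rw [cls, cls, ← (Equiv.mulRight g).surjective.range_comp fun g => (g * b * g⁻¹, g * b' * g⁻¹)]
  congr 1
  funext x
  simp [mul_assoc]

lemma upgrade {Λ W Q : Type} [Group Λ] [Group W] [Group Q] (ρ₁ ρ₂ : Λ →* W) (π₁ π₂ : Λ →* Q)
    (ε : Q) (u : W) (h1 : ∀ l, π₁ l = ε * π₂ l * ε⁻¹) (h2 : ∀ l, π₁ l = 1 → ρ₁ l = u * ρ₂ l * u⁻¹) :
    ∃ γ : Wr Q W, ∀ l, cst ((MulAction.toPermHom Q Q).comp π₁) ρ₁ l =
      γ * cst ((MulAction.toPermHom Q Q).comp π₂) ρ₂ l * γ⁻¹ := by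
  let b : Q → Q := fun q => (Quotient.mk'' q : MulAction.orbitRel.Quotient π₁.range Q).out
  have h3 : ∀ q, ∃ l, q = π₁ l * b q := fun q => by
    obtain ⟨⟨_, l, rfl⟩, h⟩ := Quotient.exact' (Quotient.out_eq' (Quotient.mk'' q :
      MulAction.orbitRel.Quotient π₁.range Q)).symm
    exact ⟨l, h.symm⟩
  have h4 : ∀ l q, b (π₁ l * q) = b q := fun l q =>
    congrArg Quotient.out (Quotient.sound' ⟨⟨_, l, rfl⟩, rfl⟩)
  choose r hr using h3
  refine ⟨⟨Equiv.mulLeft ε, fun q => ρ₁ (r q) * u * (ρ₂ (r q))⁻¹⟩, fun l => ?_⟩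
  rw [eq_mul_inv_iff_mul_eq]
  ext q
  · simp [h1, mul_assoc]
  · have e1 := hr ((π₁ l)⁻¹ * q)
    rw [← map_inv, h4, map_inv] at e1
    have e2 := h2 ((r q)⁻¹ * l * r ((π₁ l)⁻¹ * q)) (by
      rw [map_mul, map_mul, map_inv, ← mul_left_inj (b q), mul_assoc, ← e1, mul_assoc,
        mul_inv_cancel_left, one_mul, inv_mul_eq_iff_eq_mul, ← hr])
    simp only [map_mul, map_inv] at e2
    have e3 : (cst ((MulAction.toPermHom Q Q).comp π₁) ρ₁ l).p⁻¹ q = (π₁ l)⁻¹ * q := by simp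
    rw [mul_c, mul_c, e3, cst_c, cst_c]
    calc _ = ρ₁ (r q) * ((ρ₁ (r q))⁻¹ * ρ₁ l * ρ₁ (r ((π₁ l)⁻¹ * q))) * u *
        (ρ₂ (r ((π₁ l)⁻¹ * q)))⁻¹ := by group
      _ = _ := by rw [e2]; group

namespace Gr
variable {V E A G : Type} [Fintype V] [DecidableEq V] [Fintype E] [Fintype A] [Group G]
  {Γ : Gr V E A}

theorem exists_balanced (X : GD Γ G) : ∃ (n : ℕ) (_ : 0 < n) (W I : Type) (_ : Finite W)
    (_ : Finite I) (σ : V → HH A →* Wr I (FreeGroup W)) (u : E → Wr I (FreeGroup W)),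
    (∀ e, σ (Γ.vert (e, true)) (Γ.sd.a (e, true) ^ n) =
      u e * σ (Γ.vert (e, false)) (Γ.sd.a (e, false) ^ n) * (u e)⁻¹ ∧
      σ (Γ.vert (e, true)) (Γ.sd.s (e, true) ^ n) =
      u e * σ (Γ.vert (e, false)) (Γ.sd.s (e, false) ^ n) * (u e)⁻¹) ∧
    (∀ k, Sep (σ (Γ.vert k)) ((Subgroup.zpowers (Γ.z k)).comap (MonoidHom.fst _ _))) ∧
    ∀ v, Sep (σ v) ((Subgroup.zpowers 1).comap (MonoidHom.fst _ _)) := by
  classical
  have h1 : ∀ k, ∃ N : Subgroup (FreeGroup A), N.FiniteIndex ∧ (Γ.z k ≠ 1 →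
      (∀ (Q : Type) [Group Q] [Finite Q] (π : FreeGroup A →* Q), π.ker ≤ N →
        Sep (om π) (Subgroup.zpowers (Γ.z k)) ∧ ∀ n : ℕ, 0 < n → (∀ q : Q, q ^ n = 1) → ∀ x : Q,
          ∃ (S : Set (Q × A)) (τ : FreeGroup (Q × A)) (j : ℕ), CycAt π S τ ∧ 0 < j ∧
            IsConj (τ ^ j) ((om π (Γ.z k ^ n)).c x)) ∧
      ∃ (K : Subgroup G) (_ : K.FiniteIndex) (f : K →* Multiplicative ℤ)
        (h : X.ι (Γ.vert k) (Γ.z k, 1) ∈ K), f ⟨_, h⟩ = ofAdd 1 ∧
          ∀ h ∈ N, X.ι (Γ.vert k) (h, 1) ∈ K) := by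
    intro k
    by_cases hz : Γ.z k = 1
    · exact ⟨⊤, inferInstance, fun h => absurd hz h⟩
    · obtain ⟨N, _, h⟩ := cyc_main hz
      obtain ⟨K, _, f, h2, h3⟩ := X.vrc k hz
      haveI := fi_comap K ((X.ι (Γ.vert k)).comp (MonoidHom.inl _ _))
      exact ⟨N ⊓ K.comap ((X.ι (Γ.vert k)).comp (MonoidHom.inl _ _)), inferInstance, fun _ =>
        ⟨fun Q _ _ π hπ => h Q π (hπ.trans inf_le_left), K, inferInstance, f, h2, h3,
          fun g hg => hg.2⟩⟩
  choose N hN h1 using h1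
  haveI := Subgroup.finiteIndex_iInf hN
  set N₀ := (⨅ k, N k).normalCore
  haveI := Fintype.ofFinite (FreeGroup A ⧸ N₀)
  set π := QuotientGroup.mk' N₀
  have hk : ∀ k, π.ker ≤ N k := fun k => by
    rw [QuotientGroup.ker_mk']; exact (Subgroup.normalCore_le _).trans (iInf_le _ k)
  have hn : ∀ q : FreeGroup A ⧸ N₀, q ^ Nat.card (FreeGroup A ⧸ N₀) = 1 := fun q => pow_card_eq_one'
  obtain ⟨r, r0, h2⟩ := stepD X hn Nat.card_pos (QuotientGroup.mk'_surjective N₀)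
    (fun k hz => by
      obtain ⟨K, _, f, h, h3, h4⟩ := (h1 k hz).2
      exact ⟨K, inferInstance, f, h, h3, fun g hg => h4 g (hk k hg)⟩)
    (Γ.exists_cls π _ fun k x hz => ((h1 k hz).1 _ π (hk k)).2 _ Nat.card_pos hn x)
  set n := Nat.card (FreeGroup A ⧸ N₀) * r
  set B := FreeGroup ((FreeGroup A ⧸ N₀) × A)
  let cl : E × Bool → B → B → (E × Set (B × B) → ℤ) := fun k b b' =>
    (if k.2 then 1 else -1 : ℤ) • (Pi.single (k.1, cls b b') 1 - Pi.single (k.1, cls 1 1) 1)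
  have hcl : Adm cl := ⟨fun k => by simp [cl], fun k g b b' => by simp only [cl, cls_conj],
    fun e b b' => by simp [cl]⟩
  obtain ⟨Y, _, σ, h3, h4⟩ := exists_family hcl.one
    (AddSubmonoid.sum_mem _ fun v (_ : v ∈ univ) => h2 _ cl hcl v)
  let σ' : V → HH A →* Wr _ B := fun v => Wr.sum (vs π) (σ v)
  have hp : ∀ v, Per n (σ' v) := fun v => (vs_per hn r).sum (h3 v)
  have h5 : ∑ v, imb Γ.sd cl n v (σ' v) = 0 := by
    simp only [σ', imb_sum, Finset.sum_add_distrib, h4, Finset.sum_neg_distrib]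
    exact add_neg_cancel _
  rw [sum_imb] at h5
  have h6 : ∀ e, ∃ u : Wr _ B, σ' (Γ.vert (e, true)) (Γ.sd.a (e, true) ^ n) =
      u * σ' (Γ.vert (e, false)) (Γ.sd.a (e, false) ^ n) * u⁻¹ ∧
      σ' (Γ.vert (e, true)) (Γ.sd.s (e, true) ^ n) =
      u * σ' (Γ.vert (e, false)) (Γ.sd.s (e, false) ^ n) * u⁻¹ := by
    intro e
    obtain ⟨β, hβ⟩ := fib_perm
      (fun x => cls ((σ' (Γ.vert (e, true)) (Γ.sd.a (e, true) ^ n)).c x)
        ((σ' (Γ.vert (e, true)) (Γ.sd.s (e, true) ^ n)).c x))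
      (fun x => cls ((σ' (Γ.vert (e, false)) (Γ.sd.a (e, false) ^ n)).c x)
        ((σ' (Γ.vert (e, false)) (Γ.sd.s (e, false) ^ n)).c x)) fun κ => by
      have h7 := congrFun h5 (e, κ)
      rw [Finset.sum_apply, Finset.sum_eq_single e (fun e' _ he => by
        simp [cl, Pi.single_apply, he.symm, -map_pow]) (by simp)] at h7
      simp only [cl, if_true, one_smul, Bool.false_eq_true, if_false, neg_smul, Pi.add_apply,
        Finset.sum_apply, Pi.neg_apply, Pi.sub_apply, Pi.single_apply, Prod.mk.injEq, true_and,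
        Finset.sum_neg_distrib, Finset.sum_sub_distrib, Finset.sum_boole, eq_comm (a := κ)] at h7
      rw [Pi.zero_apply, neg_sub, sub_add_sub_cancel, sub_eq_zero] at h7
      exact Nat.cast_injective (R := ℤ) h7
    have h8 : ∀ x, ∃ g : B, _ := fun x => (hβ x).ge ⟨1, rfl⟩
    choose g hg using h8
    simp only [one_mul, inv_one, mul_one, Prod.mk.injEq] at hg
    refine ⟨⟨β⁻¹, g⟩, Wr.ext ?_ (funext fun x => ?_), Wr.ext ?_ (funext fun x => ?_)⟩
    · rw [hp, conj_p _ (hp _ _)]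
    · rw [conj_c _ (hp _ _)]; exact (hg x).1.symm
    · rw [hp, conj_p _ (hp _ _)]
    · rw [conj_c _ (hp _ _)]; exact (hg x).2.symm
  choose u hu using h6
  refine ⟨n, Nat.mul_pos Nat.card_pos r0, _, _, inferInstance, inferInstance, σ', u, hu,
    fun k => Sep.sum (Sep.comp ?_ _) _, fun v => Sep.sum ((sep_one π).comp _) _⟩
  by_cases hz : Γ.z k = 1
  · rw [hz]; exact sep_one π
  · exact ((h1 k hz).1 _ π (hk k)).1

variable (Γ) in
/-- The edge group as an image of the lattice. -/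
def ed (k : E × Bool) : Multiplicative ℤ × Multiplicative ℤ →* HH A :=
  ((zpowersHom _ (Γ.z k)).comp (MonoidHom.fst _ _ * MonoidHom.snd _ _ ^ Γ.m k)).prod
    (MonoidHom.snd _ _)

omit [Fintype V] [DecidableEq V] [Fintype E] [Fintype A] in
lemma ed_apply (k : E × Bool) (l : Multiplicative ℤ × Multiplicative ℤ) :
    Γ.ed k l = Γ.sd.a k ^ l.1.toAdd * Γ.sd.s k ^ l.2.toAdd := by
  ext
  · simp [ed, sd, zpow_add, ← zpow_mul, mul_comm]
  · simp [ed, sd]

omit [Fintype V] [DecidableEq V] [Fintype A] in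
lemma deep (X : GD Γ G) {n : ℕ} (hn : 0 < n) : ∃ (Q : Type) (_ : Group Q) (_ : Finite Q)
    (π : G →* Q), ∀ k l, π (X.ι (Γ.vert k) (Γ.ed k l)) = 1 →
      (Γ.z k = 1 ∨ (n : ℤ) ∣ l.1.toAdd) ∧ (n : ℤ) ∣ l.2.toAdd := by
  have h0 : ∀ {H : Type} [Group H] (f : H →* Multiplicative ℤ) {m : ℕ}, 0 < m →
      ∃ L : Subgroup H, L.FiniteIndex ∧ ∀ g ∈ L, (m : ℤ) ∣ (f g).toAdd := by
    intro H _ f m hm
    haveI : NeZero m := ⟨hm.ne'⟩
    exact ⟨((Int.castAddHom (ZMod m)).toMultiplicative.comp f).ker, inferInstance, fun g hg =>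
      (ZMod.intCast_zmod_eq_zero_iff_dvd _ _).1 hg⟩
  have h1 : ∀ k, ∃ L : Subgroup G, L.FiniteIndex ∧ ∀ l, X.ι (Γ.vert k) (Γ.ed k l) ∈ L →
      (Γ.z k = 1 ∨ (n : ℤ) ∣ l.1.toAdd) ∧ (n : ℤ) ∣ l.2.toAdd := by
    intro k
    by_cases hz : Γ.z k = 1
    · obtain ⟨L, h1, h2⟩ := h0 X.χ hn
      exact ⟨L, h1, fun l hl => ⟨Or.inl hz, by simpa [X.hχ, ed] using h2 _ hl⟩⟩
    obtain ⟨K, hK, f, h2, h3⟩ := X.vrc k hz
    obtain ⟨c, c0, -, hc⟩ := Subgroup.exists_pow_mem_of_index_ne_zero hK.index_ne_zero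
      (X.ι (Γ.vert k) (Γ.sd.s k))
    obtain ⟨L, h4, h5⟩ := h0 X.χ (Nat.mul_pos c0 hn)
    obtain ⟨L', h6, h7⟩ := h0 f hn
    haveI : (L'.map K.subtype).FiniteIndex := ⟨by
      rw [Subgroup.index_map_subtype]; exact mul_ne_zero h6.index_ne_zero hK.index_ne_zero⟩
    refine ⟨L ⊓ L'.map K.subtype, inferInstance, fun l hl => ?_⟩
    obtain ⟨j, hj⟩ : ((c * n : ℕ) : ℤ) ∣ l.2.toAdd := by simpa [X.hχ, ed] using h5 _ hl.1
    obtain ⟨g, hg, e⟩ := hl.2
    have e2 : g = ⟨_, h2⟩ ^ l.1.toAdd * (⟨_, hc⟩ ^ j) ^ (n : ℤ) := by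
      refine Subtype.ext (e.trans ?_)
      rw [ed_apply, hj, map_mul, map_zpow, map_zpow]
      simp only [Subgroup.coe_mul, SubgroupClass.coe_zpow, ← zpow_natCast, ← zpow_mul]
      congr 2
      push_cast; ring
    have h8 := h7 g hg
    rw [e2, map_mul, map_zpow, map_zpow, h3, toAdd_mul, toAdd_zpow, toAdd_zpow] at h8
    refine ⟨Or.inr ?_, by rw [hj]; push_cast; exact (dvd_mul_left _ _).mul_right _⟩
    simpa using (dvd_add_left (dvd_mul_right _ _)).1 h8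
  choose L hL h1 using h1
  haveI := Subgroup.finiteIndex_iInf hL
  refine ⟨G ⧸ (⨅ k, L k).normalCore, inferInstance, inferInstance, QuotientGroup.mk' _,
    fun k l h => h1 k l ?_⟩
  exact ((Subgroup.normalCore_le _).trans (iInf_le _ k)) ((QuotientGroup.eq_one_iff _).1 h)

theorem exists_rho (X : GD Γ G) (hz : ∀ e, Γ.z (e, true) = 1 → Γ.z (e, false) = 1) :
    ∃ (W I : Type) (_ : Finite W) (_ : Finite I) (ρ : V → HH A →* Wr I (FreeGroup W))
      (γ : E → Wr I (FreeGroup W)),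
    (∀ e l, ρ (Γ.vert (e, true)) (Γ.ed (e, true) l) =
      γ e * ρ (Γ.vert (e, false)) (Γ.ed (e, false) l) * (γ e)⁻¹) ∧
    (∀ k, Sep (ρ (Γ.vert k)) ((Subgroup.zpowers (Γ.z k)).comap (MonoidHom.fst _ _))) ∧
    ∀ v, Sep (ρ v) ((Subgroup.zpowers 1).comap (MonoidHom.fst _ _)) := by
  obtain ⟨n, hn, W, I, _, _, σ, u, h1, h2, h3⟩ := exists_balanced X
  obtain ⟨Q, _, _, π, h4⟩ := deep X hn
  have h5 := fun e => upgrade ((σ (Γ.vert (e, true))).comp (Γ.ed (e, true)))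
    ((σ (Γ.vert (e, false))).comp (Γ.ed (e, false)))
    (π.comp ((X.ι (Γ.vert (e, true))).comp (Γ.ed (e, true))))
    (π.comp ((X.ι (Γ.vert (e, false))).comp (Γ.ed (e, false)))) (π (X.ε e)) (u e)
    (fun l => by
      simp only [MonoidHom.comp_apply, ed_apply, map_mul, map_zpow, map_inv, X.ha, X.hs, conj_zpow]
      group)
    (fun l hl => by
      obtain ⟨h6, j, hj⟩ := h4 _ l hl
      have h7 : σ (Γ.vert (e, true)) (Γ.sd.a (e, true)) ^ l.1.toAdd =
          u e * σ (Γ.vert (e, false)) (Γ.sd.a (e, false)) ^ l.1.toAdd * (u e)⁻¹ := by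
        rcases h6 with h6 | ⟨i, hi⟩
        · have e1 : Γ.sd.a (e, true) = 1 := by simp [sd, h6]
          have e2 : Γ.sd.a (e, false) = 1 := by simp [sd, hz e h6]
          simp [e1, e2]
        · rw [hi, zpow_mul, zpow_mul, zpow_natCast, zpow_natCast, ← map_pow, ← map_pow, (h1 e).1,
            conj_zpow]
      simp only [MonoidHom.comp_apply, ed_apply, map_mul, map_zpow, h7]
      rw [hj, zpow_mul, zpow_mul, zpow_natCast, zpow_natCast, ← map_pow, ← map_pow, (h1 e).2,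
        conj_zpow]
      group)
  choose γ hγ using h5
  refine ⟨W, Q × I, inferInstance, inferInstance,
    fun v => flat.comp (cst ((MulAction.toPermHom Q Q).comp (π.comp (X.ι v))) (σ v)),
    fun e => flat (γ e), fun e l => ?_, fun k => (h2 k).cst _, fun v => (h3 v).cst _⟩
  rw [← map_inv, MonoidHom.comp_apply, MonoidHom.comp_apply, ← map_mul, ← map_mul]
  exact congrArg flat (hγ e l)

end Gr

end Pool.Agent.P.MP_67c9d4_al
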