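import Pool.Agent.P.MP_67c9d4_al.Wr

/-! The cone of imbalances of vertex structures. -/

namespace Pool.Agent.P.MP_67c9d4_al

open Equiv Finset Wr

/-- The sides of edges: a vertex and two generators of the edge group. -/
structure Sd (V K H : Type) where
  vert : K → V
  a : K → H
  s : K → H

section
variable {V K H : Type} [Fintype K] [DecidableEq V] [Group H] (D : Sd V K H)
variable {X Y B B' M : Type} [Group B] [Group B'] [AddCommGroup M]

def Per (n : ℕ) (σ : H →* Wr X B) : Prop := ∀ h, (σ (h ^ n)).p = 1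

def pt (cl : K → B → B → M) (n : ℕ) (v : V) (σ : H →* Wr X B) (x : X) : M :=
  ∑ k ∈ univ.filter (D.vert · = v), cl k ((σ (D.a k ^ n)).c x) ((σ (D.s k ^ n)).c x)

def imb [Fintype X] (cl : K → B → B → M) (n : ℕ) (v : V) (σ : H →* Wr X B) : M :=
  ∑ x, pt D cl n v σ x

def Cone (cl : K → B → B → M) (n : ℕ) : AddSubmonoid M :=
  AddSubmonoid.closure {m | ∃ (v : V) (X : Type) (_ : Fintype X) (σ : H →* Wr X B),
    Per n σ ∧ m = imb D cl n v σ}

variable {D}

lemma imb_mem [Fintype X] (cl : K → B → B → M) {n : ℕ} (v : V) {σ : H →* Wr X B}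
    (h : Per n σ) : imb D cl n v σ ∈ Cone D cl n :=
  AddSubmonoid.subset_closure ⟨v, X, _, σ, h, rfl⟩

lemma neg_mem_of_add {C : AddSubmonoid M} {x y : M} (hy : y ∈ C) (h : -(x + y) ∈ C) : -x ∈ C := by
  have : -x = -(x + y) + y := by abel
  rw [this]; exact C.add_mem h hy

lemma neg_mem_of_sum {C : AddSubmonoid M} {ι : Type} (s : Finset ι) (f : ι → M)
    (hf : ∀ i ∈ s, f i ∈ C) (h : -∑ i ∈ s, f i ∈ C) {i : ι} (hi : i ∈ s) : -f i ∈ C := by
  classical
  rw [← Finset.add_sum_erase s f hi] at h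
  exact neg_mem_of_add (C.sum_mem fun j hj => hf j (mem_of_mem_erase hj)) h

lemma neg_mem_of_smul {C : AddSubmonoid M} {x : M} {m : ℕ} (hm : 0 < m) (hx : x ∈ C)
    (h : -(m • x) ∈ C) : -x ∈ C := by
  obtain ⟨m, rfl⟩ := Nat.exists_eq_add_of_lt hm
  rw [zero_add, succ_nsmul'] at h
  exact neg_mem_of_add (C.nsmul_mem hx m) h

open Classical in
lemma restr_mem [Fintype X] {cl : K → B → B → M} (h1 : ∀ k, cl k 1 1 = 0) {n : ℕ} (v : V)
    {σ : H →* Wr X B} (h : Per n σ) (P : X → Prop) (hP : ∀ h x, P ((σ h).p x) ↔ P x) :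
    ∑ x ∈ univ.filter P, pt D cl n v σ x ∈ Cone D cl n := by
  have := imb_mem (D := D) cl v (σ := restr σ P hP) h
  convert this using 1
  rw [imb, Finset.sum_filter]
  refine Finset.sum_congr rfl fun x _ => ?_
  by_cases hx : P x <;> simp [pt, hx, h1, -map_pow]

lemma pull_neg_mem [Fintype X] [Fintype Y] {cl : K → B → B → M} (h1 : ∀ k, cl k 1 1 = 0) {n : ℕ}
    (v : V) {σ : H →* Wr Y B} (h : Per n σ) (α : H →* Perm X) (hα : ∀ h, α (h ^ n) = 1)
    (π : X → Y) (hπ : ∀ h x, π (α h x) = (σ h).p (π x))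
    (hσ : -imb D cl n v σ ∈ Cone D cl n) : -imb D cl n v (pull α σ π hπ) ∈ Cone D cl n := by
  classical
  let σ' := flat.comp (cst α σ)
  have hp : Per n σ' := fun g => by
    ext q <;> simp [σ', hα, h g, -map_pow]
  have h2 : imb D cl n v σ' = Fintype.card X • imb D cl n v σ := by
    rw [imb, Fintype.sum_prod_type]
    simp [imb, pt, σ', -map_pow]
  have h3 := restr_mem (D := D) h1 v hp (fun q => ¬q.2 = π q.1) (fun g q => by
    simp [σ', hπ])
  have h4 : imb D cl n v σ' = imb D cl n v (pull α σ π hπ) +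
      ∑ x ∈ univ.filter (fun q : X × Y => ¬q.2 = π q.1), pt D cl n v σ' x := by
    rw [imb, ← Finset.sum_filter_add_sum_filter_not univ (fun q : X × Y => q.2 = π q.1)]
    congr 1
    rw [Finset.sum_filter, Fintype.sum_prod_type]
    simp [imb, pt, σ', -map_pow]
  refine neg_mem_of_add (by convert h3) (y := ∑ x ∈ univ.filter (fun q : X × Y => ¬q.2 = π q.1),
    pt D cl n v σ' x) ?_
  rw [← h4, h2, ← smul_neg]
  exact AddSubmonoid.nsmul_mem _ hσ _

lemma imb_push [Fintype X] (cl : K → B' → B' → M) (n : ℕ) (v : V) (σ : H →* Wr X B)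
    (ψ : B →* B') :
    imb D cl n v ((push ψ).comp σ) = imb D (fun k b b' => cl k (ψ b) (ψ b')) n v σ := rfl

lemma cone_push (cl : K → B' → B' → M) (n : ℕ) (ψ : B →* B') :
    Cone D (fun k b b' => cl k (ψ b) (ψ b')) n ≤ Cone D cl n := by
  refine AddSubmonoid.closure_le.2 ?_
  rintro _ ⟨v, X, _, σ, h, rfl⟩
  rw [← imb_push]
  exact imb_mem cl v h

lemma flat_mem [Fintype X] [Fintype Y] (cl : K → B' → B' → M) {n r : ℕ} (v : V)
    {σ : H →* Wr X B} (h : Per n σ) (η : B →* Wr Y B') (hη : ∀ b, (η (b ^ r)).p = 1) :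
    imb D (fun k b b' => ∑ y, cl k ((η (b ^ r)).c y) ((η (b' ^ r)).c y)) n v σ ∈
      Cone D cl (n * r) := by
  have h1 : ∀ g x, (σ (g ^ (n * r))).c x = (σ (g ^ n)).c x ^ r := fun g x => by
    rw [pow_mul, map_pow σ _ r, pow_c (h g)]
  have h2 : ∀ g, (σ (g ^ (n * r))).p = 1 := fun g => by
    rw [pow_mul, map_pow σ _ r, pow_p, h g, one_pow]
  have hp : Per (n * r) (flat.comp ((push η).comp σ)) := fun g => by
    ext q
    · simp only [MonoidHom.comp_apply, flat_p, push_p, h2]; rfl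
    · simp only [MonoidHom.comp_apply, flat_p, push_p, push_c, h2, h1, hη]; rfl
  convert imb_mem (D := D) cl v hp using 1
  rw [imb, imb, Fintype.sum_prod_type]
  refine Finset.sum_congr rfl fun x _ => ?_
  rw [pt, Finset.sum_comm]
  refine Finset.sum_congr rfl fun y _ => ?_
  simp only [pt, MonoidHom.comp_apply, flat_c, push_c, h1]

/-- Division: the same imbalance, with multiplicity, at a longer period. -/
lemma divide (cl : K → Multiplicative ℤ → Multiplicative ℤ → M) {n m : ℕ} (hm : 0 < m) {x : M}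
    (hx : x ∈ Cone D cl n) : m • x ∈ Cone D cl (n * m) := by
  haveI : NeZero m := ⟨hm.ne'⟩
  let d : Wr (ZMod m) (Multiplicative ℤ) :=
    ⟨Equiv.addRight 1, fun y => if y = 0 then Multiplicative.ofAdd 1 else 1⟩
  have hd : ∀ y, d.p y = y + 1 := fun _ => rfl
  have hp : (d ^ m).p = 1 := by ext y; rw [shift_pow d 1 hd]; simp
  have hc : ∀ y, (d ^ m).c y = Multiplicative.ofAdd 1 := fun y => by
    rw [cyc d 1 hd isUnit_one, tot_apply]; simp [d]
  let η := zpowersHom _ d
  have h1 : ∀ b : Multiplicative ℤ, η (b ^ m) = (d ^ m) ^ b.toAdd := fun b => by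
    rw [map_pow, zpowersHom_apply, ← zpow_natCast, ← zpow_natCast, ← zpow_mul, ← zpow_mul, mul_comm]
  have h2 : ∀ b y, (η (b ^ m)).c y = b := fun b y => by
    rw [h1, zpow_c hp, hc, ← ofAdd_zsmul]; simp
  induction hx using AddSubmonoid.closure_induction with
  | mem x hx =>
    obtain ⟨v, X, _, σ, h, rfl⟩ := hx
    have := flat_mem (D := D) cl v h η (r := m) (fun b => by rw [h1, zpow_p, hp, one_zpow])
    convert this using 1
    simp only [h2, imb, pt, Finset.smul_sum]
    simp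
  | zero => simp
  | add x y _ _ hx hy => rw [smul_add]; exact AddSubmonoid.add_mem _ hx hy

lemma imb_sum [Fintype X] [Fintype Y] (cl : K → B → B → M) (n : ℕ) (v : V) (σ : H →* Wr X B)
    (σ' : H →* Wr Y B) :
    imb D cl n v (Wr.sum σ σ') = imb D cl n v σ + imb D cl n v σ' := by
  simp [imb, pt, -map_pow]

lemma Per.sum {n : ℕ} {σ : H →* Wr X B} {σ' : H →* Wr Y B} (h : Per n σ) (h' : Per n σ') :
    Per n (Wr.sum σ σ') := fun g => by
  rw [sum_p, h g, h' g]; ext x; cases x <;> rfl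

/-- Every element of the cone is the imbalance of a family on a common finite set. -/
lemma exists_family [Fintype V] {cl : K → B → B → M} (h1 : ∀ k, cl k 1 1 = 0) {n : ℕ} {x : M}
    (hx : x ∈ Cone D cl n) : ∃ (X : Type) (_ : Fintype X) (σ : V → H →* Wr X B),
      (∀ v, Per n (σ v)) ∧ ∑ v, imb D cl n v (σ v) = x := by
  induction hx using AddSubmonoid.closure_induction with
  | mem x hx =>
    obtain ⟨v, X, _, σ, h, rfl⟩ := hx
    refine ⟨X, inferInstance, fun w => if w = v then σ else 1, fun w => ?_, ?_⟩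
    · by_cases hw : w = v
      · simpa [hw] using h
      · intro g; simp [hw]
    · rw [Finset.sum_eq_single v]
      · simp
      · intro w _ hw; simp [hw, imb, pt, h1]
      · simp
  | zero => exact ⟨Empty, inferInstance, fun _ => 1, fun _ _ => rfl, by simp [imb]⟩
  | add x y _ _ hx hy =>
    obtain ⟨X, _, σ, h, rfl⟩ := hx
    obtain ⟨Y, _, σ', h', rfl⟩ := hy
    exact ⟨X ⊕ Y, inferInstance, fun v => Wr.sum (σ v) (σ' v), fun v => (h v).sum (h' v), by
      simp [imb_sum, Finset.sum_add_distrib]⟩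

end

end Pool.Agent.P.MP_67c9d4_al
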