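import Mathlib

/-! Graphs of free groups with cyclic edge groups, property (VRC), right-angled Artin groups. -/

namespace Pool.Agent.P.MP_67c9d4_al

/-- A graph of free groups with cyclic edge groups. The vertex group at `v` is free on the letters
`a` with `vx a = v`. The edge `e` goes from `o e` to `t e`, and its group is generated by `z e` in
the group at `o e` and by `z' e` in the group at `t e`. -/
structure GoG (V E A : Type) where
  vx : A → V
  o : E → V
  t : E → V
  z : E → FreeGroup A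
  z' : E → FreeGroup A
  hz : ∀ e, z e ∈ Subgroup.closure (FreeGroup.of '' {a | vx a = o e})
  hz' : ∀ e, z' e ∈ Subgroup.closure (FreeGroup.of '' {a | vx a = t e})
  triv : ∀ e, z e = 1 ↔ z' e = 1

namespace GoG
variable {V E A : Type} (𝒢 : GoG V E A)

/-- The relators `e⁻¹ (z e) e (z' e)⁻¹`. -/
def rels : Set (FreeGroup (A ⊕ E)) :=
  Set.range fun e => (FreeGroup.of (Sum.inr e))⁻¹ * FreeGroup.map Sum.inl (𝒢.z e) *
    FreeGroup.of (Sum.inr e) * (FreeGroup.map Sum.inl (𝒢.z' e))⁻¹

/-- The path group (Bass group): generators the letters and the edges, relations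
`e⁻¹ (z e) e = z' e`. -/
abbrev PG : Type := PresentedGroup 𝒢.rels

/-- Words in the letters as elements of the path group. -/
def vg : FreeGroup A →* 𝒢.PG := (PresentedGroup.mk _).comp (FreeGroup.map Sum.inl)

/-- An edge as an element of the path group. -/
def eg (e : E) : 𝒢.PG := PresentedGroup.of (Sum.inr e)

/-- `Path u v g`: the element `g` of the path group is represented by a path from `u` to `v`. -/
inductive Path : V → V → 𝒢.PG → Prop
  | gen (a : A) : Path (𝒢.vx a) (𝒢.vx a) (𝒢.vg (FreeGroup.of a))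
  | edge (e : E) : Path (𝒢.o e) (𝒢.t e) (𝒢.eg e)
  | one (v : V) : Path v v 1
  | mul {u v w : V} {g h : 𝒢.PG} : Path u v g → Path v w h → Path u w (g * h)
  | inv {u v : V} {g : 𝒢.PG} : Path u v g → Path v u g⁻¹

/-- `ι` is an isomorphism onto the fundamental group at `v₀`, the group of loops at `v₀`. -/
def IsPi1 {N : Type} [Group N] (v₀ : V) (ι : N →* 𝒢.PG) : Prop :=
  Function.Injective ι ∧ ∀ g, g ∈ ι.range ↔ 𝒢.Path v₀ v₀ g

/-- `D` is a Dehn twist: it fixes the letters and sends each edge `e` to `e (z' e) ^ n`. -/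
def IsTwist (D : 𝒢.PG → 𝒢.PG) : Prop :=
  (∀ a, D (𝒢.vg (FreeGroup.of a)) = 𝒢.vg (FreeGroup.of a)) ∧
    ∀ e, ∃ n : ℤ, D (𝒢.eg e) = 𝒢.eg e * 𝒢.vg (𝒢.z' e ^ n)

end GoG

/-- A positive power of `φ` is, up to an inner automorphism, the restriction of `D` along `ι`. -/
def IsRoot {N P : Type} [Group N] [Group P] (ι : N →* P) (D : MulAut P) (φ : MulAut N) : Prop :=
  ∃ (k : ℕ) (c : N), 0 < k ∧ ∀ x, ι ((φ ^ k) x) = ι c * D (ι x) * (ι c)⁻¹

/-- The mapping torus group. -/
abbrev MT {N : Type} [Group N] (φ : MulAut N) : Type :=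
  N ⋊[zpowersHom (MulAut N) φ] Multiplicative ℤ

/-- Every cyclic subgroup is a virtual retract. -/
def VRC (G : Type) [Group G] : Prop :=
  ∀ g : G, ∃ K : Subgroup G, K.FiniteIndex ∧ Subgroup.zpowers g ≤ K ∧
    ∃ r : K →* Subgroup.zpowers g, ∀ x : K, (x : G) ∈ Subgroup.zpowers g → (r x : G) = x

/-- The right-angled Artin group of a simple graph. -/
abbrev RAAG {T : Type} (Γ : SimpleGraph T) : Type :=
  PresentedGroup {r | ∃ a b, Γ.Adj a b ∧
    r = FreeGroup.of a * FreeGroup.of b * (FreeGroup.of a)⁻¹ * (FreeGroup.of b)⁻¹}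

/-- Some finite index subgroup embeds in the right-angled Artin group of a finite graph. -/
def VA (G : Type) [Group G] : Prop :=
  ∃ H : Subgroup G, H.FiniteIndex ∧
    ∃ (T : Type) (_ : Finite T) (Γ : SimpleGraph T) (f : H →* RAAG Γ), Function.Injective f

end Pool.Agent.P.MP_67c9d4_al
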