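import Pool.Agent.P.MP_67c9d4_al.NF

/-! The mapping torus of a Dehn twist with (VRC) virtually embeds in a right-angled Artin group. -/

namespace Pool.Agent.P.MP_67c9d4_al

open Equiv Wr Multiplicative SemidirectProduct
open FreeGroup hiding map_mul map_inv map_one

lemma exists_shift {F : Type} [Group F] [Countable F] {z : F} (hz : ¬IsOfFinOrder z) :
    ∃ Ψ : ℕ × ℤ ≃ F × ℕ, ∀ q i, Ψ (q, i + 1) = ((Ψ (q, i)).1 * z, (Ψ (q, i)).2) := by
  haveI : Countable (F ⧸ Subgroup.zpowers z) := QuotientGroup.mk_surjective.countable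
  obtain ⟨e⟩ : Nonempty (ℕ ≃ (F ⧸ Subgroup.zpowers z) × ℕ) := nonempty_equiv_of_countable
  refine ⟨(e.prodCongr (Equiv.refl ℤ)).trans (Equiv.ofBijective
    (fun x => (x.1.1.out * z ^ x.2, x.1.2)) ⟨?_, ?_⟩), fun q i => by simp [zpow_add, mul_assoc]⟩
  · rintro ⟨⟨q, m⟩, i⟩ ⟨⟨q', m'⟩, i'⟩ h
    obtain ⟨h1, rfl⟩ : q.out * z ^ i = q'.out * z ^ i' ∧ m = m' := by simpa using h
    obtain rfl : q = q' := by
      have := congrArg (QuotientGroup.mk (s := Subgroup.zpowers z)) h1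
      rwa [QuotientGroup.mk_mul_of_mem _ (Subgroup.zpow_mem_zpowers _ _),
        QuotientGroup.mk_mul_of_mem _ (Subgroup.zpow_mem_zpowers _ _), QuotientGroup.out_eq',
        QuotientGroup.out_eq'] at this
    rw [injective_zpow_iff_not_isOfFinOrder.2 hz (mul_left_cancel h1)]
  · rintro ⟨x, m⟩
    obtain ⟨⟨_, i, rfl⟩, h⟩ := QuotientGroup.mk_out_eq_mul (Subgroup.zpowers z) x
    exact ⟨((x, m), -i), by simp [h]⟩

lemma GoG.vg_injective {V E A : Type} [Finite A] (𝒢 : GoG V E A) : Function.Injective 𝒢.vg := by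
  let R : FreeGroup A →* Perm (FreeGroup A × ℕ) :=
    MonoidHom.mk' (fun h => (Equiv.mulRight h⁻¹).prodCongr (Equiv.refl ℕ)) fun a b => by
      ext <;> simp [mul_assoc]
  have h1 : ∀ e, ∃ σ : Perm (FreeGroup A × ℕ), σ⁻¹ * R (𝒢.z e) * σ = R (𝒢.z' e) := by
    intro e
    by_cases h : 𝒢.z e = 1
    · exact ⟨1, by simp [h, (𝒢.triv e).1 h]⟩
    obtain ⟨Ψ, hΨ⟩ := exists_shift (not_isOfFinOrder_of_isMulTorsionFree (inv_ne_one.2 h))
    obtain ⟨Ψ', hΨ'⟩ := exists_shift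
      (not_isOfFinOrder_of_isMulTorsionFree (inv_ne_one.2 (mt (𝒢.triv e).2 h)))
    refine ⟨Ψ'.symm.trans Ψ, ?_⟩
    rw [mul_assoc, inv_mul_eq_iff_eq_mul]
    refine Equiv.ext fun x => ?_
    obtain ⟨⟨q, i⟩, rfl⟩ := Ψ'.surjective x
    have a : R (𝒢.z' e) (Ψ' (q, i)) = Ψ' (q, i + 1) := (hΨ' q i).symm
    have b : R (𝒢.z e) (Ψ (q, i)) = Ψ (q, i + 1) := (hΨ q i).symm
    simp [a, b]
  choose σ hσ using h1
  let f : A ⊕ E → Perm (FreeGroup A × ℕ) := Sum.elim (fun a => R (of a)) σ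
  have a1 : ∀ h, lift f (FreeGroup.map Sum.inl h) = R h := fun h =>
    DFunLike.congr_fun (FreeGroup.ext_hom ((lift f).comp (FreeGroup.map Sum.inl)) R
      fun a => by simp [f]) h
  let θ : 𝒢.PG →* _ := PresentedGroup.toGroup (f := f) (by
    rintro _ ⟨e, rfl⟩
    simp only [map_mul, map_inv, lift_apply_of, a1]
    rw [mul_inv_eq_one]
    exact hσ e)
  refine (injective_iff_map_eq_one _).2 fun h e => ?_
  have : R h = 1 := by rw [← a1, ← map_one θ, ← e]; rfl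
  simpa [R] using congrArg Prod.fst (Equiv.congr_fun this (1, 0))

section slift
variable {N H : Type} [Group N] [Group H] {φ : MulAut N}

lemma conj_zp (f : N →* H) (τ : H) (h : ∀ x, f (φ x) = τ * f x * τ⁻¹) (i : ℤ) :
    ∀ x, f ((φ ^ i) x) = τ ^ i * f x * (τ ^ i)⁻¹ := by
  induction i using Int.induction_on with
  | zero => simp
  | succ i ih => intro x; rw [zpow_add_one, MulAut.mul_apply, ih, h]; group
  | pred i ih =>
    intro x
    rw [zpow_sub_one, MulAut.mul_apply, ih]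
    have := h (φ⁻¹ x)
    rw [MulAut.apply_inv_self] at this
    rw [this]; group

/-- The homomorphism from a mapping torus group given by the images of the fibre and of the
stable letter. -/
def slift (f : N →* H) (τ : H) (h : ∀ x, f (φ x) = τ * f x * τ⁻¹) :
    MT φ →* H :=
  SemidirectProduct.lift f (zpowersHom H τ) fun i => MonoidHom.ext (conj_zp f τ h i.toAdd)

lemma slift_apply (f : N →* H) (τ : H) (h : ∀ x, f (φ x) = τ * f x * τ⁻¹) (x) :
    slift f τ h x = f x.left * τ ^ x.right.toAdd := rfl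

lemma slift_inj {f : N →* H} {τ : H} (h : ∀ x, f (φ x) = τ * f x * τ⁻¹)
    (hf : ∀ x, f x = 1 → x = 1) (χ : H →* Multiplicative ℤ) (h1 : ∀ x, χ (f x) = 1) {k : ℤ}
    (hk : k ≠ 0) (h2 : χ τ = ofAdd k) : Function.Injective (slift f τ h) := by
  refine (injective_iff_map_eq_one _).2 fun x e => ?_
  rw [slift_apply] at e
  have := congrArg (fun y => (χ y).toAdd) e
  simp only [map_mul, h1, map_zpow, h2] at this
  have h3 : x.right.toAdd = 0 := by simpa [hk] using this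
  rw [h3, zpow_zero, mul_one] at e
  exact SemidirectProduct.ext (hf _ e) h3

lemma exists_lift {G P : Type} [Group G] [Group P] {j : G →* P} (hj : Function.Injective j)
    (f : H →* P) (hf : ∀ h, f h ∈ j.range) : ∃ f' : H →* G, ∀ h, j (f' h) = f h :=
  ⟨(MonoidHom.ofInjective hj).symm.toMonoidHom.comp (f.codRestrict _ hf), fun h =>
    MonoidHom.apply_ofInjective_symm hj _⟩

end slift

/-- Elements of infinite order are primitive in the homology of a finite index subgroup. -/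
def VR (G : Type) [Group G] : Prop :=
  ∀ g : G, ¬IsOfFinOrder g → ∃ (K : Subgroup G) (_ : K.FiniteIndex) (f : K →* Multiplicative ℤ)
    (h : g ∈ K), f ⟨g, h⟩ = ofAdd 1

lemma VRC.vr {G : Type} [Group G] (h : VRC G) : VR G := by
  intro g hg
  obtain ⟨K, h1, h2, r, h3⟩ := h g
  have h4 : Function.Injective (zpowersHom G g) := injective_zpow_iff_not_isOfFinOrder.2 hg
  obtain ⟨f, hf⟩ := exists_lift h4 ((Subgroup.zpowers g).subtype.comp r) fun x => (r x).2
  refine ⟨K, h1, f, h2 (Subgroup.mem_zpowers g), h4 ?_⟩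
  rw [hf]
  simpa using h3 ⟨g, _⟩ (Subgroup.mem_zpowers g)

lemma VR.comap {G G' : Type} [Group G] [Group G'] (h : VR G) {J : G' →* G}
    (hJ : Function.Injective J) : VR G' := by
  intro g hg
  obtain ⟨K, _, f, h1, h2⟩ := h (J g) (mt (hJ.isOfFinOrder_iff).1 hg)
  exact ⟨K.comap J, fi_comap K J, f.comp (J.subgroupComap K), h1, h2⟩

lemma VA.map {G G' : Type} [Group G] [Group G'] (h : VA G') {J : G' →* G}
    (hJ : Function.Injective J) (hr : J.range.FiniteIndex) : VA G := by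
  obtain ⟨H, h1, T, _, Γ, f, hf⟩ := h
  refine ⟨H.map J, ⟨?_⟩, T, inferInstance, Γ, f.comp (H.equivMapOfInjective J hJ).symm.toMonoidHom,
    hf.comp (H.equivMapOfInjective J hJ).symm.injective⟩
  rw [Subgroup.index_map_of_injective _ hJ]
  exact mul_ne_zero h1.1 hr.1

namespace GoG
variable {V E A N : Type} [Group N] {𝒢 : GoG V E A} {n : E → ℤ}

lemma D_vg {D : 𝒢.PG →* 𝒢.PG} (hDa : ∀ a, D (𝒢.vg (of a)) = 𝒢.vg (of a)) (h : FreeGroup A) :
    D (𝒢.vg h) = 𝒢.vg h :=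
  DFunLike.congr_fun (FreeGroup.ext_hom (D.comp 𝒢.vg) 𝒢.vg hDa) h

lemma Path.map {D : 𝒢.PG →* 𝒢.PG} (hDa : ∀ a, D (𝒢.vg (of a)) = 𝒢.vg (of a))
    (hDe : ∀ e, D (𝒢.eg e) = 𝒢.eg e * 𝒢.vg (𝒢.z' e ^ n e)) {u v : V} {g : 𝒢.PG}
    (hp : 𝒢.Path u v g) : 𝒢.Path u v (D g) := by
  induction hp with
  | gen a => rw [hDa]; exact .gen a
  | edge e => rw [hDe]; exact (Path.edge e).mul (Path.vg _ (Subgroup.zpow_mem _ (𝒢.hz' e) _))
  | one v => rw [map_one]; exact .one v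
  | mul _ _ a b => rw [map_mul]; exact a.mul b
  | inv _ a => rw [map_inv]; exact a.inv

theorem exists_GD [Finite A] (v₀ : V) (conn : ∀ v, ∃ g, 𝒢.Path v₀ v g) (D : MulAut 𝒢.PG)
    (hDa : ∀ a, D (𝒢.vg (of a)) = 𝒢.vg (of a))
    (hDe : ∀ e, D (𝒢.eg e) = 𝒢.eg e * 𝒢.vg (𝒢.z' e ^ n e)) (ι : N →* 𝒢.PG)
    (hι : Function.Injective ι) (hr : ∀ g, 𝒢.Path v₀ v₀ g → g ∈ ι.range) (φ : MulAut N)
    (hφ : ∀ x, ι (φ x) = D (ι x))
    (hv : VR (MT φ)) :
    Nonempty (GD (𝒢.gr n) (MT φ)) := by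
  classical
  choose g hg using conn
  have hD := D_vg (D := D.toMonoidHom) hDa
  have ht : ∀ x, (inl (D x) : MT D) = inr (ofAdd 1) * inl x * (inr (ofAdd 1))⁻¹ := fun x => by
    rw [← map_inv, ← inl_aut]; simp
  let j : MT φ →* MT D :=
    slift (inl.comp ι) (inr (ofAdd 1)) fun x => by simp only [MonoidHom.comp_apply, hφ, ht]
  have hj : Function.Injective j := slift_inj _ (fun x e => hι (inl_injective (by simpa using e)))
    rightHom (by simp) one_ne_zero (by simp)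
  have j1 : ∀ x, 𝒢.Path v₀ v₀ x → (inl x : MT D) ∈ j.range := fun x hx => by
    obtain ⟨y, rfl⟩ := hr x hx
    exact ⟨inl y, by simp [j, slift_apply]⟩
  have j2 : (inr (ofAdd 1) : MT D) ∈ j.range := ⟨inr (ofAdd 1), by simp [j, slift_apply]⟩
  have j3 : ∀ x, rightHom (j x) = rightHom x := fun x => by
    simp [j, slift_apply, map_mul, map_zpow, ← ofAdd_zsmul]
  let π : V → FreeGroup A →* FreeGroup A := fun v => lift fun a => if 𝒢.vx a = v then of a else 1
  have p1 : ∀ v h, π v h ∈ 𝒢.At v := fun v h => by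
    refine (show (π v).range ≤ _ from ?_) ⟨h, rfl⟩
    refine range_lift_le ?_
    rintro _ ⟨a, rfl⟩
    dsimp only
    split_ifs with e
    exacts [lt_mem (x := (a, true)) e, Subgroup.one_mem _]
  have p2 : ∀ v, ∀ h ∈ 𝒢.At v, π v h = h := fun v h hh => by
    refine MonoidHom.eqOn_closure (f := π v) (g := MonoidHom.id _) ?_ hh
    rintro _ ⟨a, rfl, rfl⟩
    simp [π]
  let κ : V → HH A →* MT D := fun v => (MulAut.conj (inl (g v))).toMonoidHom.comp
    ((inl.comp (𝒢.vg.comp (π v))).noncommCoprod (zpowersHom (MT D) (inr (ofAdd 1))) fun h i => by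
      refine Commute.zpow_right ?_ _
      have := ht (𝒢.vg (π v h))
      rw [show D _ = _ from hD _, eq_mul_inv_iff_mul_eq] at this
      exact this)
  have k1 : ∀ v h, κ v h = inl (g v) * (inl (𝒢.vg (π v h.1)) * inr (ofAdd 1) ^ h.2.toAdd) *
    (inl (g v))⁻¹ := fun _ _ => rfl
  have k2 : ∀ v h, κ v h ∈ j.range := fun v h => by
    have a := j1 _ (((hg v).mul (Path.vg _ (p1 v h.1))).mul (hg v).inv)
    have b := j1 _ ((hg v).mul ((hg v).map (D := D.toMonoidHom) hDa hDe).inv)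
    have c := Subgroup.mul_mem _ a (Subgroup.zpow_mem _ (Subgroup.mul_mem _ b j2) h.2.toAdd)
    convert c using 1
    rw [k1, map_mul, map_mul, map_mul, map_inv, map_inv, show D.toMonoidHom _ = D _ from rfl, ht,
      show ∀ a b : MT D, a * (b * a * b⁻¹)⁻¹ * b = a * b * a⁻¹ from fun a b => by group, conj_zpow]
    group
  choose ι' hι' using fun v => exists_lift hj (κ v) (k2 v)
  choose ε hε using fun e => j1 _ (((hg _).mul (.edge e)).mul (hg _).inv)
  refine ⟨ι', rightHom, ε, fun v h => ?_, fun e => hj ?_, fun e => hj ?_, fun k hk => hv _ ?_⟩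
  · rw [← j3, hι', k1]
    simp [← map_zpow, ← ofAdd_zsmul]
  · simp only [map_mul, map_inv, hι', hε, k1, Gr.sd, gr, cond_true, cond_false, p2 _ _ (𝒢.hz e),
      p2 _ _ (𝒢.hz' e), ← rel, toAdd_one, zpow_zero]
    group
  · have := ht (𝒢.eg e)
    rw [hDe, map_mul, eq_mul_inv_iff_mul_eq] at this
    simp only [map_mul, map_inv, hι', hε, k1, Gr.sd, gr, cond_true, cond_false, zpow_zero,
      p2 _ _ (Subgroup.zpow_mem _ (𝒢.hz' e) _), toAdd_ofAdd, zpow_one, map_one]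
    rw [mul_assoc, ← eq_inv_mul_iff_mul_eq] at this
    rw [this]
    group
  · rw [← hj.isOfFinOrder_iff, hι', k1, 
      show π ((𝒢.gr n).vert k) ((𝒢.gr n).z k, 1).1 = _ from p2 _ _ (𝒢.zz_mem k)]
    simp only [toAdd_one, zpow_zero, mul_one]
    rw [← map_inv, ← map_mul, ← map_mul, inl_injective.isOfFinOrder_iff]
    exact fun h => not_isOfFinOrder_of_isMulTorsionFree hk (𝒢.vg_injective.isOfFinOrder_iff.1
      (IsConj.isOfFinOrder (IsConj.symm (isConj_iff.2 ⟨_, rfl⟩)) h))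

theorem va_twist [Finite V] [Finite E] [Finite A] (v₀ : V) (conn : ∀ v, ∃ g, 𝒢.Path v₀ v g)
    (D : MulAut 𝒢.PG) (hDa : ∀ a, D (𝒢.vg (of a)) = 𝒢.vg (of a))
    (hDe : ∀ e, D (𝒢.eg e) = 𝒢.eg e * 𝒢.vg (𝒢.z' e ^ n e)) (ι : N →* 𝒢.PG)
    (hι : Function.Injective ι) (hr : ∀ g, g ∈ ι.range ↔ 𝒢.Path v₀ v₀ g) (φ : MulAut N)
    (hφ : ∀ x, ι (φ x) = D (ι x))
    (hv : VR (MT φ)) :
    VA (MT φ) := by
  classical
  obtain ⟨X⟩ := exists_GD v₀ conn D hDa hDe ι hι (fun g => (hr g).2) φ hφ hv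
  cases nonempty_fintype V
  cases nonempty_fintype E
  cases nonempty_fintype A
  obtain ⟨W, I, _, _, ρ, γ, h1, h2, h3⟩ := Gr.exists_rho X fun e => (𝒢.triv e).1
  obtain ⟨θ, h4, h5⟩ := exists_theta ρ γ h1 h2 h3 D.toMonoidHom hDa hDe
  refine raag_wr (slift ((θ.comp ι).prod 1) (inr (ρ v₀ (1, ofAdd 1)), ofAdd 1) fun x => ?_)
    (slift_inj _ (fun x e => hι ?_) (MonoidHom.snd _ _) (fun _ => rfl) one_ne_zero rfl)
  · refine Prod.ext ?_ (by simp)
    exact (congrArg θ (hφ x)).trans (h5 _ _ _ ((hr _).1 ⟨x, rfl⟩))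
  · rw [map_one]
    exact h4 _ _ _ ((hr _).1 ⟨x, rfl⟩) (congrArg Prod.fst e)

theorem va_main [Finite V] [Finite E] [Finite A] (v₀ : V) (conn : ∀ v, ∃ g, 𝒢.Path v₀ v g)
    (D : MulAut 𝒢.PG) (hDa : ∀ a, D (𝒢.vg (of a)) = 𝒢.vg (of a))
    (hDe : ∀ e, D (𝒢.eg e) = 𝒢.eg e * 𝒢.vg (𝒢.z' e ^ n e)) (ι : N →* 𝒢.PG)
    (hι : Function.Injective ι) (hr : ∀ g, g ∈ ι.range ↔ 𝒢.Path v₀ v₀ g) (φ : MulAut N)
    {k : ℕ} (hk : 0 < k) (c : N) (hφ : ∀ x, ι ((φ ^ k) x) = ι c * D (ι x) * (ι c)⁻¹)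
    (hv : VRC (MT φ)) :
    VA (MT φ) := by
  let J : MT (MulAut.conj c⁻¹ * φ ^ k) →* MT φ :=
    slift inl (inl c⁻¹ * inr (ofAdd (k : ℤ))) fun x => by
      have := inl_aut (φ := zpowersHom (MulAut N) φ) (ofAdd (k : ℤ)) x
      simp only [zpowersHom_apply, toAdd_ofAdd, zpow_natCast] at this
      rw [MulAut.mul_apply, MulAut.conj_apply]
      simp only [map_mul, this, map_inv]
      group
  have hJ : Function.Injective J := slift_inj _ (fun x e => inl_injective (by simpa using e))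
    rightHom (by simp) (k := k) (by omega) (by simp)
  refine (va_twist v₀ conn D hDa hDe ι hι hr _ (fun x => ?_) (hv.vr.comap hJ)).map hJ ?_
  · rw [MulAut.mul_apply, MulAut.conj_apply]
    simp only [map_mul, hφ, map_inv]
    group
  · haveI : (AddSubgroup.zmultiples (k : ℤ)).toSubgroup.FiniteIndex :=
      ⟨by rw [AddSubgroup.index_toSubgroup, Int.index_zmultiples]; omega⟩
    haveI := fi_comap (AddSubgroup.zmultiples (k : ℤ)).toSubgroup (rightHom : MT φ →* _)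
    refine Subgroup.finiteIndex_of_le
      (H := (AddSubgroup.zmultiples (k : ℤ)).toSubgroup.comap rightHom) ?_
    rintro x ⟨i, hi⟩
    have a : ∀ y, inl y ∈ J.range := fun y => ⟨inl y, by simp [J, slift_apply]⟩
    have b : inl c⁻¹ * inr (ofAdd (k : ℤ)) ∈ J.range := ⟨inr (ofAdd 1), by simp [J, slift_apply]⟩
    rw [← inl_left_mul_inr_right x, show x.right = ofAdd (k : ℤ) ^ i from hi.symm, map_zpow]
    exact Subgroup.mul_mem _ (a _) (Subgroup.zpow_mem _ ((Subgroup.mul_mem_cancel_left _ (a _)).1 b) _)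

end GoG

end Pool.Agent.P.MP_67c9d4_al
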