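import Pool.Agent.P.MP_67c9d4_al.Raag
import Pool.Agent.P.MP_67c9d4_al.BalC

/-! Path words and the representation of the path group. -/

namespace Pool.Agent.P.MP_67c9d4_al

open Equiv Wr Multiplicative
open FreeGroup hiding map_mul map_inv map_one

namespace GoG
variable {V E A : Type} (𝒢 : GoG V E A)

def gr (n : E → ℤ) : Gr V E A :=
  ⟨fun k => bif k.2 then 𝒢.o k.1 else 𝒢.t k.1, fun k => bif k.2 then 𝒢.z k.1 else 𝒢.z' k.1,
    fun k => bif k.2 then 0 else n k.1⟩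

def vt (k : E × Bool) : V := bif k.2 then 𝒢.o k.1 else 𝒢.t k.1
def zz (k : E × Bool) : FreeGroup A := bif k.2 then 𝒢.z k.1 else 𝒢.z' k.1
def ek (k : E × Bool) : 𝒢.PG := bif k.2 then 𝒢.eg k.1 else (𝒢.eg k.1)⁻¹
def bar (k : E × Bool) : E × Bool := (k.1, !k.2)
def At (v : V) : Subgroup (FreeGroup A) := FS {a | 𝒢.vx a = v}

lemma bar_bar (k : E × Bool) : bar (bar k) = k := by simp [bar]

lemma bar_ne (k : E × Bool) : k ≠ bar k := by simp [bar, Prod.ext_iff]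

lemma zz_mem (k : E × Bool) : 𝒢.zz k ∈ 𝒢.At (𝒢.vt k) := by
  obtain ⟨e, _ | _⟩ := k
  exacts [𝒢.hz' e, 𝒢.hz e]

lemma rel (e : E) : (𝒢.eg e)⁻¹ * 𝒢.vg (𝒢.z e) * 𝒢.eg e = 𝒢.vg (𝒢.z' e) := by
  rw [← mul_inv_eq_one]
  exact PresentedGroup.one_of_mem ⟨e, rfl⟩

lemma pinch (k : E × Bool) (i : ℤ) :
    𝒢.ek k * 𝒢.vg (𝒢.zz (bar k) ^ i) * 𝒢.ek (bar k) = 𝒢.vg (𝒢.zz k ^ i) := by
  obtain ⟨e, _ | _⟩ := k
  · change (𝒢.eg e)⁻¹ * 𝒢.vg (𝒢.z e ^ i) * 𝒢.eg e = 𝒢.vg (𝒢.z' e ^ i)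
    rw [map_zpow, map_zpow, ← rel, ← inv_inv (𝒢.eg e), inv_inv (𝒢.eg e)⁻¹, conj_zpow]
  · change 𝒢.eg e * 𝒢.vg (𝒢.z' e ^ i) * (𝒢.eg e)⁻¹ = 𝒢.vg (𝒢.z e ^ i)
    rw [map_zpow, map_zpow, ← conj_zpow, ← rel]
    simp [mul_assoc]

lemma Path.vg {v : V} {h : FreeGroup A} (hh : h ∈ 𝒢.At v) : 𝒢.Path v v (𝒢.vg h) := by
  induction hh using Subgroup.closure_induction with
  | mem b hb => obtain ⟨a, rfl, rfl⟩ := hb; exact .gen a
  | one => rw [map_one]; exact .one v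
  | mul a b _ _ ha hb => rw [map_mul]; exact ha.mul hb
  | inv a _ ha => rw [map_inv]; exact ha.inv

/-- Path words with a given number of edges. -/
inductive PW (u : V) : V → ℕ → 𝒢.PG → Prop
  | base {h : FreeGroup A} (hh : h ∈ 𝒢.At u) : PW u u 0 (𝒢.vg h)
  | step {v w : V} {n : ℕ} {g : 𝒢.PG} (k : E × Bool) {h : FreeGroup A} (hp : PW u v n g)
      (e1 : v = 𝒢.vt k) (e2 : w = 𝒢.vt (bar k)) (hh : h ∈ 𝒢.At w) :
      PW u w (n + 1) (g * 𝒢.ek k * 𝒢.vg h)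

variable {𝒢}

lemma PW.mulv {u v : V} {n : ℕ} {g : 𝒢.PG} (hp : 𝒢.PW u v n g) {h : FreeGroup A}
    (hh : h ∈ 𝒢.At v) : 𝒢.PW u v n (g * 𝒢.vg h) := by
  cases hp with
  | base h1 => rw [← map_mul]; exact .base (Subgroup.mul_mem _ h1 hh)
  | step k hp e1 e2 h1 => rw [mul_assoc, ← map_mul]; exact .step k hp e1 e2 (Subgroup.mul_mem _ h1 hh)

lemma PW.trans {u v w : V} {n m : ℕ} {g g' : 𝒢.PG} (hp : 𝒢.PW u v n g) (hp' : 𝒢.PW v w m g') :
    𝒢.PW u w (n + m) (g * g') := by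
  induction hp' with
  | base h1 => exact hp.mulv h1
  | step k _ e1 e2 h1 ih => rw [← mul_assoc, ← mul_assoc]; exact .step k ih e1 e2 h1

lemma PW.edge (k : E × Bool) : 𝒢.PW (𝒢.vt k) (𝒢.vt (bar k)) 1 (𝒢.ek k) := by
  simpa using PW.step k (.base (Subgroup.one_mem _)) rfl rfl (Subgroup.one_mem (𝒢.At _))

lemma Path.pw {u v : V} {g : 𝒢.PG} (hp : 𝒢.Path u v g) :
    (∃ n, 𝒢.PW u v n g) ∧ ∃ n, 𝒢.PW v u n g⁻¹ := by
  induction hp with
  | gen a =>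
    have : of a ∈ 𝒢.At (𝒢.vx a) := lt_mem (x := (a, true)) rfl
    exact ⟨⟨0, .base this⟩, 0, map_inv 𝒢.vg _ ▸ .base (Subgroup.inv_mem _ this)⟩
  | edge e => exact ⟨⟨1, PW.edge (e, true)⟩, 1, PW.edge (e, false)⟩
  | one v =>
    rw [inv_one, ← map_one 𝒢.vg]
    exact ⟨⟨0, .base (Subgroup.one_mem _)⟩, 0, .base (Subgroup.one_mem _)⟩
  | mul _ _ h1 h2 =>
    obtain ⟨⟨_, a⟩, _, b⟩ := h1
    obtain ⟨⟨_, c⟩, _, d⟩ := h2
    exact ⟨⟨_, a.trans c⟩, _, by rw [mul_inv_rev]; exact d.trans b⟩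
  | inv _ h => rw [inv_inv]; exact h.symm

section nf
variable {Ω W : Type} [Group W] {act : W →* Perm (((E × Bool) × Ω))}
  {θ : 𝒢.PG →* FreeGroup ((E × Bool) × Ω) ⋊[pa.comp act] W} {ρ : V → FreeGroup A →* W}
  {γ : E × Bool → W} {ω : E × Bool → Ω}

lemma PW.nf (ha : ∀ w x, (act w x).1 = x.1)
    (h1 : ∀ v, ∀ h ∈ 𝒢.At v, θ (𝒢.vg h) = .inr (ρ v h))
    (h2 : ∀ k, θ (𝒢.ek k) = .inl (lt ((k, ω k), k.2)) * .inr (γ k) *
      .inl (lt ((bar k, ω (bar k)), k.2)))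
    (h3 : ∀ k h, act (ρ (𝒢.vt k) h) (k, ω k) = (k, ω k) → h ∈ Subgroup.zpowers (𝒢.zz k))
    {u v : V} {n : ℕ} {g : 𝒢.PG} (hp : 𝒢.PW u v n g) :
    (∃ m < n, 𝒢.PW u v m g) ∨ (n = 0 ∧ ∃ h ∈ 𝒢.At v, g = 𝒢.vg h) ∨
      ∃ g' k h n' L, n = n' + 1 ∧ 𝒢.PW u (𝒢.vt k) n' g' ∧ v = 𝒢.vt (bar k) ∧ h ∈ 𝒢.At v ∧
        g = g' * 𝒢.ek k * 𝒢.vg h ∧
        FreeGroup.IsReduced (L ++ [(act (θ (g' * 𝒢.ek k)).right (bar k, ω (bar k)), k.2)]) ∧
        (θ g).left = FreeGroup.mk (L ++ [(act (θ (g' * 𝒢.ek k)).right (bar k, ω (bar k)), k.2)]) := by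
  induction hp with
  | base hh => exact .inr (.inl ⟨rfl, _, hh, rfl⟩)
  | @step v w n g k h hp e1 e2 hh ih =>
    subst e1
    have e3 : (θ (g * 𝒢.ek k * 𝒢.vg h)).left = (θ g).left * FreeGroup.mk [(act (θ g).right (k, ω k), k.2),
        (act (θ (g * 𝒢.ek k)).right (bar k, ω (bar k)), k.2)] := by
      rw [map_mul, map_mul, h1 _ h hh, h2]
      simp [pa_lt, mk_cons, mk_nil, mul_assoc]
    have e4 : FreeGroup.IsReduced [(act (θ g).right (k, ω k), k.2),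
        (act (θ (g * 𝒢.ek k)).right (bar k, ω (bar k)), k.2)] := by simp [FreeGroup.IsReduced]
    rcases ih with ⟨m, hm, ih⟩ | ⟨rfl, h', hh', rfl⟩ | ⟨g', k', h', n', L, rfl, p1, p2, p3, rfl, p4, p5⟩
    · exact .inl ⟨m + 1, by omega, .step k ih rfl e2 hh⟩
    · refine .inr (.inr ⟨_, k, h, 0, [_], rfl, hp, e2, hh, rfl, e4, ?_⟩)
      rw [e3, h1 _ h' hh']; simp
    · by_cases hc : act (θ (g' * 𝒢.ek k')).right (bar k', ω (bar k')) =
          act (θ (g' * 𝒢.ek k' * 𝒢.vg h')).right (k, ω k)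
      · obtain rfl : bar k' = k := by simpa [ha] using congrArg Prod.fst hc
        rw [map_mul θ _ (𝒢.vg h'), h1 _ h' p3] at hc
        obtain ⟨i, rfl⟩ := h3 (bar k') h' (by simpa using hc.symm)
        rw [bar_bar] at e2
        subst e2
        refine .inl ⟨n', by omega, ?_⟩
        have := (p1.mulv (Subgroup.zpow_mem _ (𝒢.zz_mem k') i)).mulv hh
        rwa [← pinch, ← mul_assoc, ← mul_assoc] at this
      · refine .inr (.inr ⟨_, k, h, _, L ++ [(act (θ (g' * 𝒢.ek k')).right (bar k', ω (bar k')), k'.2),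
          (act (θ (g' * 𝒢.ek k' * 𝒢.vg h')).right (k, ω k), k.2)], rfl, hp, e2, hh, rfl, ?_, ?_⟩)
        swap
        · rw [e3, p5, mul_mk]; simp
        · have := p4.append_overlap (L₃ := [_, _]) (isReduced_cons_cons.2 ⟨fun e => absurd e hc, e4⟩)
            (List.cons_ne_nil _ _)
          simpa using this

lemma PW.inj (ha : ∀ w x, (act w x).1 = x.1)
    (h1 : ∀ v, ∀ h ∈ 𝒢.At v, θ (𝒢.vg h) = .inr (ρ v h))
    (h2 : ∀ k, θ (𝒢.ek k) = .inl (lt ((k, ω k), k.2)) * .inr (γ k) *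
      .inl (lt ((bar k, ω (bar k)), k.2)))
    (h3 : ∀ k h, act (ρ (𝒢.vt k) h) (k, ω k) = (k, ω k) → h ∈ Subgroup.zpowers (𝒢.zz k))
    (h4 : ∀ v h, ρ v h = 1 → h = 1) {u v : V} (n : ℕ) {g : 𝒢.PG} (hp : 𝒢.PW u v n g)
    (hg : θ g = 1) : g = 1 := by
  classical
  induction n using Nat.strong_induction_on with
  | _ n ih =>
    rcases hp.nf ha h1 h2 h3 with ⟨m, hm, h⟩ | ⟨-, h, hh, rfl⟩ | ⟨_, _, _, _, L, -, -, -, -, -, p4, p5⟩
    · exact ih m hm h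
    · rw [h1 v h hh, ← map_one SemidirectProduct.inr] at hg
      rw [h4 v h (SemidirectProduct.inr_injective hg), map_one]
    · rw [hg] at p5
      have := congrArg toWord p5
      rw [toWord_mk, p4.reduce_eq] at this
      simp at this

end nf

/-- The path group maps to a free group extended by a wreath product, injectively on paths. -/
theorem exists_theta {n : E → ℤ} {W I : Type} (ρ : V → HH A →* Wr I (FreeGroup W))
    (γ : E → Wr I (FreeGroup W))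
    (h1 : ∀ e l, ρ (𝒢.o e) ((𝒢.gr n).ed (e, true) l) =
      γ e * ρ (𝒢.t e) ((𝒢.gr n).ed (e, false) l) * (γ e)⁻¹)
    (h2 : ∀ k, Sep (ρ (𝒢.vt k)) ((Subgroup.zpowers (𝒢.zz k)).comap (MonoidHom.fst _ _)))
    (h3 : ∀ v, Sep (ρ v) ((Subgroup.zpowers 1).comap (MonoidHom.fst _ _)))
    (D : 𝒢.PG →* 𝒢.PG) (hDa : ∀ a, D (𝒢.vg (of a)) = 𝒢.vg (of a))
    (hDe : ∀ e, D (𝒢.eg e) = 𝒢.eg e * 𝒢.vg (𝒢.z' e ^ n e)) :
    ∃ θ : 𝒢.PG →* FreeGroup ((E × Bool) × (I → Fib W)) ⋊[pa.comp secK] Wr I (FreeGroup W),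
      (∀ u v g, 𝒢.Path u v g → θ g = 1 → g = 1) ∧ ∀ u v g, 𝒢.Path u v g →
        θ (D g) = .inr (ρ u (1, ofAdd 1)) * θ g * (.inr (ρ v (1, ofAdd 1)))⁻¹ := by
  choose ω hω using h2
  let f : A ⊕ E → FreeGroup ((E × Bool) × (I → Fib W)) ⋊[pa.comp secK] Wr I (FreeGroup W) :=
    Sum.elim (fun a => .inr (ρ (𝒢.vx a) (of a, 1))) fun e =>
      .inl (of ((e, true), ω (e, true))) * .inr (γ e) * .inl (of ((e, false), ω (e, false)))
  have a1 : ∀ v, ∀ h ∈ 𝒢.At v, lift f (FreeGroup.map Sum.inl h) = .inr (ρ v (h, 1)) := by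
    intro v h hh
    refine MonoidHom.eqOn_closure (f := (lift f).comp (FreeGroup.map Sum.inl))
      (g := SemidirectProduct.inr.comp ((ρ v).comp (MonoidHom.inl _ _))) ?_ hh
    rintro _ ⟨a, rfl, rfl⟩
    simp [f]
  have a2 : ∀ k l, (.inr (ρ (𝒢.vt k) ((𝒢.gr n).ed k l)) * .inl (of (k, ω k)) :
      FreeGroup ((E × Bool) × (I → Fib W)) ⋊[pa.comp secK] Wr I (FreeGroup W)) =
      .inl (of (k, ω k)) * .inr (ρ (𝒢.vt k) ((𝒢.gr n).ed k l)) := by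
    intro k l
    have := (hω k ((𝒢.gr n).ed k l)).2 ⟨_, rfl⟩
    ext1
    · simp [pa_of, secK_apply, this]
    · simp
  have a3 : ∀ e l, .inr (ρ (𝒢.o e) ((𝒢.gr n).ed (e, true) l)) * f (.inr e) =
      f (.inr e) * .inr (ρ (𝒢.t e) ((𝒢.gr n).ed (e, false) l)) := by
    intro e l
    have b1 := a2 (e, true) l
    have b2 := a2 (e, false) l
    simp only [vt, cond_true, cond_false] at b1 b2
    simp only [f, Sum.elim_inr]
    rw [← mul_assoc, ← mul_assoc, b1, mul_assoc _ _ (SemidirectProduct.inr _), mul_assoc _ (SemidirectProduct.inl _), ← b2, ← map_mul, h1, inv_mul_cancel_right, map_mul]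
    simp only [mul_assoc]
  have a4 : ∀ k, (𝒢.gr n).ed k (ofAdd 1, 1) = (𝒢.zz k, 1) := fun k => by
    ext <;> simp [Gr.ed]; rfl
  let θ : 𝒢.PG →* _ := PresentedGroup.toGroup (f := f) (by
    rintro _ ⟨e, rfl⟩
    have := a3 e (ofAdd 1, 1)
    rw [a4, a4] at this
    simp only [map_mul, map_inv, lift_apply_of, a1 _ _ (𝒢.hz e), a1 _ _ (𝒢.hz' e)]
    rw [mul_inv_eq_one, mul_assoc, inv_mul_eq_iff_eq_mul]
    exact this)
  have b1 : ∀ v, ∀ h ∈ 𝒢.At v, θ (𝒢.vg h) = .inr (ρ v (h, 1)) := a1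
  have b2 : ∀ e, θ (𝒢.eg e) = f (.inr e) := fun e => PresentedGroup.toGroup.of _
  refine ⟨θ, fun u v g hp => ?_, fun u v g hp => ?_⟩
  · obtain ⟨m, hm⟩ := hp.pw.1
    refine PW.inj (ρ := fun v => (ρ v).comp (MonoidHom.inl _ _)) (ω := ω)
      (γ := fun k => bif k.2 then γ k.1 else (γ k.1)⁻¹) (fun _ _ => rfl) b1 ?_
      (fun k h e => (hω k _).1 (congrArg Prod.snd e)) (fun v h e => ?_) m hm
    · rintro ⟨e, _ | _⟩
      · change θ (𝒢.eg e)⁻¹ = _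
        rw [map_inv, b2]
        simp [f, lt_false, bar, mul_assoc]
      · exact b2 e
    · obtain ⟨w, hw⟩ := h3 v
      have := (hw (h, 1)).1 (by rw [show ρ v (h, 1) = 1 from e, map_one]; rfl)
      rwa [Subgroup.mem_comap, Subgroup.zpowers_one_eq_bot, Subgroup.mem_bot] at this
  · induction hp with
    | gen a =>
      rw [hDa, b1 _ (of a) (lt_mem (x := (a, true)) rfl), ← map_inv, ← map_mul, ← map_mul, ← map_inv,
        ← map_mul, ← map_mul]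
      congr 2
    | edge e =>
      have c1 := a3 e (1, ofAdd 1)
      have c2 : (𝒢.gr n).ed (e, true) (1, ofAdd 1) = (1, ofAdd 1) := by ext <;> simp [Gr.ed, gr]
      have c3 : (𝒢.gr n).ed (e, false) (1, ofAdd 1) = (𝒢.z' e ^ n e, 1) * (1, ofAdd 1) := by
        ext <;> simp [Gr.ed, gr]
      rw [hDe, map_mul, b1 _ _ (Subgroup.zpow_mem _ (𝒢.hz' e) _), b2, ← c2, c1, c2, c3, map_mul,
        map_mul]
      group
    | one v => simp
    | mul _ _ a b => rw [map_mul, map_mul, a, b, map_mul]; group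
    | inv _ a => rw [map_inv, map_inv, a, map_inv]; group

end GoG

end Pool.Agent.P.MP_67c9d4_al
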