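import Pool.Agent.P.MP_67c9d4_al.Wr

/-! The vertical structure: edge labels in a Cayley graph, free factors, sections. -/

namespace Pool.Agent.P.MP_67c9d4_al

open Equiv Finset Wr
open FreeGroup hiding map_mul map_inv map_one

section letters
variable {W : Type}

/-- A signed letter as a group element. -/
def lt (x : W × Bool) : FreeGroup W := mk [x]

lemma lt_true (a : W) : lt (a, true) = of a := rfl
lemma lt_false (a : W) : lt (a, false) = (of a)⁻¹ := rfl
lemma lt_not (x : W × Bool) : lt (x.1, !x.2) = (lt x)⁻¹ := rfl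
lemma mk_cons (x : W × Bool) (L : List (W × Bool)) : mk (x :: L) = lt x * mk L := rfl
lemma mk_nil : mk ([] : List (W × Bool)) = 1 := rfl

lemma mk_eq_prod (L : List (W × Bool)) : mk L = (L.map lt).prod := by
  induction L with
  | nil => rfl
  | cons x L ih => rw [mk_cons, ih]; simp

/-- The free factor spanned by a set of letters. -/
def FS (S : Set W) : Subgroup (FreeGroup W) := Subgroup.closure (of '' S)

lemma lt_mem {S : Set W} {x : W × Bool} (h : x.1 ∈ S) : lt x ∈ FS S := by
  obtain ⟨a, b⟩ := x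
  have : of a ∈ FS S := Subgroup.subset_closure ⟨a, h, rfl⟩
  cases b
  · exact (FS S).inv_mem this
  · exact this

lemma FS_mono {S S' : Set W} (h : S ⊆ S') : FS S ≤ FS S' :=
  Subgroup.closure_mono (Set.image_mono h)

lemma FS_univ (b : FreeGroup W) : b ∈ FS (Set.univ : Set W) := by
  rw [FS, Set.image_univ, closure_range_of]; trivial

lemma FS_empty {b : FreeGroup W} (h : b ∈ FS (∅ : Set W)) : b = 1 := by
  simpa [FS] using h

lemma letters_of_mem {S : Set W} {L : List (W × Bool)} (hL : IsReduced L) (h : mk L ∈ FS S) :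
    ∀ x ∈ L, x.1 ∈ S := by
  classical
  have key : ∀ b ∈ FS S, ∀ x ∈ b.toWord, x.1 ∈ S := by
    intro b hb
    induction hb using Subgroup.closure_induction with
    | mem b hb => obtain ⟨a, ha, rfl⟩ := hb; simpa using ha
    | one => simp
    | mul a b _ _ ha hb =>
      intro x hx
      rcases List.mem_append.1 ((toWord_mul_sublist a b).subset hx) with h | h
      exacts [ha x h, hb x h]
    | inv a _ ha =>
      intro x hx
      rw [toWord_inv, invRev] at hx
      simp only [List.mem_reverse, List.mem_map] at hx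
      obtain ⟨y, hy, rfl⟩ := hx
      exact ha y hy
  have := key _ h
  rwa [toWord_mk, hL.reduce_eq] at this

open Classical in
/-- Exponent sum of a letter. -/
noncomputable def ex (l : W) : FreeGroup W →* Multiplicative ℤ :=
  lift fun l' => if l' = l then Multiplicative.ofAdd 1 else 1

lemma ex_of_notMem {S : Set W} {l : W} (hl : l ∉ S) {b : FreeGroup W} (hb : b ∈ FS S) :
    ex l b = 1 := by
  refine (Subgroup.closure_le (ex l).ker).2 ?_ hb
  rintro _ ⟨a, ha, rfl⟩
  have : a ≠ l := fun e => hl (e ▸ ha)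
  simp [ex, this]

lemma ex_lt_ne {l : W} {x : W × Bool} (h : x.1 ≠ l) : ex l (lt x) = 1 :=
  ex_of_notMem (S := {x.1}) (fun e => h (Set.mem_singleton_iff.1 e).symm) (lt_mem rfl)

lemma ex_lt (x : W × Bool) :
    ex x.1 (lt x) = Multiplicative.ofAdd 1 ∨ ex x.1 (lt x) = Multiplicative.ofAdd (-1) := by
  obtain ⟨a, b⟩ := x
  cases b
  · right; rw [lt_false, map_inv]; simp [ex]
  · left; rw [lt_true]; simp [ex]

/-- The word read along a sequence of letters. -/
def rd (w : ℕ → W × Bool) : ℕ → FreeGroup W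
  | 0 => 1
  | i + 1 => rd w i * lt (w i)

lemma rd_eq (w : ℕ → W × Bool) (n : ℕ) : rd w n = ((List.range n).map fun i => lt (w i)).prod := by
  induction n with
  | zero => rfl
  | succ n ih => rw [rd, ih, List.range_succ]; simp

lemma rd_mem {S : Set W} {w : ℕ → W × Bool} (h : ∀ i, (w i).1 ∈ S) (n : ℕ) : rd w n ∈ FS S := by
  induction n with
  | zero => exact (FS S).one_mem
  | succ n ih => exact (FS S).mul_mem ih (lt_mem (h n))

lemma ex_rd {w : ℕ → W × Bool} {n : ℕ} (h : ∀ i < n, ∀ j < n, (w i).1 = (w j).1 → i = j) {i : ℕ}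
    (hi : i < n) : ex (w i).1 (rd w n) = ex (w i).1 (lt (w i)) := by
  have : ∀ m, ex (w i).1 (rd w m) = ∏ j ∈ range m, ex (w i).1 (lt (w j)) := by
    intro m
    induction m with
    | zero => simp [rd]
    | succ m ih => rw [rd, map_mul, ih, Finset.prod_range_succ]
  rw [this, Finset.prod_eq_single i]
  · intro j hj hne
    exact ex_lt_ne fun e => hne (h j (mem_range.1 hj) i hi e)
  · intro h2; exact absurd (mem_range.2 hi) h2

/-- Endomorphisms sending signed letters to signed letters. -/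
def Sg (m : FreeGroup W →* FreeGroup W) : Prop := ∀ x, ∃ x', m (lt x) = lt x'

lemma exists_rev (w : ℕ → W × Bool) (n : ℕ) (h : ∀ i < n, ∀ j < n, (w i).1 = (w j).1 → i = j) :
    ∃ m, Sg m ∧ m.comp m = MonoidHom.id _ ∧ m (rd w n) = (rd w n)⁻¹ := by
  classical
  let f : W → FreeGroup W := fun l => if hl : ∃ i, i < n ∧ (w i).1 = l then
    (if (w hl.choose).2 then (lt (w (n - 1 - hl.choose)))⁻¹ else lt (w (n - 1 - hl.choose)))
    else of l
  have h1 : ∀ i < n, lift f (lt (w i)) = (lt (w (n - 1 - i)))⁻¹ := by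
    intro i hi
    have hl : ∃ j, j < n ∧ (w j).1 = (w i).1 := ⟨i, hi, rfl⟩
    have e : hl.choose = i := h _ hl.choose_spec.1 _ hi hl.choose_spec.2
    have e2 : f (w i).1 = if (w i).2 then (lt (w (n - 1 - i)))⁻¹ else lt (w (n - 1 - i)) := by
      simp only [f, dif_pos hl, e]
    rcases hw : w i with ⟨a, b⟩
    rw [hw] at e2
    cases b
    · rw [lt_false, map_inv, lift_apply_of, e2]; rfl
    · rw [lt_true, lift_apply_of, e2]; rfl
  have h2 : ∀ l, (∃ i < n, of l = lt (w i) ∨ of l = (lt (w i))⁻¹) ∨ lift f (of l) = of l := by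
    intro l
    by_cases hl : ∃ i, i < n ∧ (w i).1 = l
    · obtain ⟨i, hi, rfl⟩ := hl
      refine Or.inl ⟨i, hi, ?_⟩
      rcases w i with ⟨a, b⟩
      cases b
      · right; rw [lt_false, inv_inv]
      · left; rfl
    · right; simp only [lift_apply_of, f, dif_neg hl]
  refine ⟨lift f, ?_, ?_, ?_⟩
  · have h3 : ∀ l, ∃ x', lift f (of l) = lt x' := by
      intro l
      rcases h2 l with ⟨i, hi, e | e⟩ | e
      · exact ⟨_, by rw [e, h1 i hi, ← lt_not]⟩
      · exact ⟨_, by rw [e, map_inv, h1 i hi, inv_inv]⟩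
      · exact ⟨(l, true), e⟩
    rintro ⟨a, b⟩
    obtain ⟨x', hx⟩ := h3 a
    cases b
    · exact ⟨(x'.1, !x'.2), by rw [lt_false, map_inv, hx, lt_not]⟩
    · exact ⟨_, hx⟩
  · ext l
    have h3 : ∀ i < n, lift f (lift f (lt (w i))) = lt (w i) := fun i hi => by
      rw [h1 i hi, map_inv, h1 _ (by omega), inv_inv]; congr 2; omega
    rw [MonoidHom.comp_apply, MonoidHom.id_apply]
    rcases h2 l with ⟨i, hi, e | e⟩ | e
    · rw [e, h3 i hi]
    · rw [e, map_inv, map_inv, h3 i hi]
    · rw [e, e]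
  · have h3 : ∀ i ≤ n, lift f (rd w i) = (rd w n)⁻¹ * rd w (n - i) := by
      intro i
      induction i with
      | zero => simp [rd]
      | succ i ih =>
        intro hi
        rw [rd, map_mul, ih (by omega), h1 i (by omega),
          show n - i = (n - 1 - i) + 1 by omega, rd, show n - (i + 1) = n - 1 - i by omega]
        group
    simpa [rd] using h3 n le_rfl

/-- Marked cosets of free factors. -/
def Fib (W : Type) : Type := Σ s : Bool × Set W, FreeGroup W ⧸ FS s.2

instance : MulAction (FreeGroup W) (Fib W) :=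
  inferInstanceAs (MulAction (FreeGroup W) (Σ s : Bool × Set W, FreeGroup W ⧸ FS s.2))

def fb (s : Bool × Set W) (b : FreeGroup W) : Fib W := ⟨s, (b : FreeGroup W ⧸ FS s.2)⟩

lemma smul_fb (g : FreeGroup W) (s : Bool × Set W) (b : FreeGroup W) :
    g • fb s b = fb s (g * b) := rfl

lemma fb_eq {s s' : Bool × Set W} {b b' : FreeGroup W} :
    fb s b = fb s' b' ↔ s = s' ∧ b⁻¹ * b' ∈ FS s.2 := by
  constructor
  · intro h
    have h1 : s = s' := congrArg Sigma.fst h
    subst h1
    exact ⟨rfl, QuotientGroup.eq.1 (eq_of_heq (Sigma.mk.inj h).2)⟩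
  · rintro ⟨rfl, h⟩
    exact congrArg (Sigma.mk s) (QuotientGroup.eq.2 h)

lemma fb_out (f : Fib W) : fb f.1 f.2.out = f := by
  obtain ⟨s, q⟩ := f
  exact congrArg (Sigma.mk s) (QuotientGroup.out_eq' q)

lemma smul_fb_one {g : FreeGroup W} {s : Bool × Set W} : g • fb s 1 = fb s 1 ↔ g ∈ FS s.2 := by
  rw [smul_fb, fb_eq]; simp

end letters

section sec
variable {X Y B T H : Type} [Group B] [MulAction B T] [Group H]

/-- The action of the wreath product on sections. -/
def sec : Wr X B →* Perm (X → T) :=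
  MonoidHom.toHomPerm
    { toFun := fun g ω x => g.c x • ω (g.p⁻¹ x)
      map_one' := by funext ω x; simp [Function.End.one_def]
      map_mul' := fun a b => by funext ω x; simp [mul_smul, Function.End.mul_def] }

lemma sec_apply (g : Wr X B) (ω : X → T) (x : X) : sec g ω x = g.c x • ω (g.p⁻¹ x) := rfl

variable {W : Type}

/-- The subgroup `Λ` is the stabiliser of a section. -/
def Sep (σ : H →* Wr X (FreeGroup W)) (Λ : Subgroup H) : Prop :=
  ∃ ω : X → Fib W, ∀ h, sec (σ h) ω = ω ↔ h ∈ Λ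

lemma Sep.sum {σ : H →* Wr X (FreeGroup W)} {Λ : Subgroup H} (h : Sep σ Λ)
    (σ' : H →* Wr Y (FreeGroup W)) : Sep (Wr.sum σ σ') Λ := by
  obtain ⟨ω, hω⟩ := h
  refine ⟨Sum.elim ω fun _ => fb (false, Set.univ) 1, fun g => ?_⟩
  rw [← hω, funext_iff, funext_iff, Sum.forall, and_iff_left]
  · rfl
  · intro y
    exact smul_fb_one.2 (FS_univ _)

lemma Sep.cst {σ : H →* Wr X (FreeGroup W)} {Λ : Subgroup H} (h : Sep σ Λ) [Nonempty Y]
    (α : H →* Perm Y) : Sep (flat.comp (cst α σ)) Λ := by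
  obtain ⟨ω, hω⟩ := h
  refine ⟨fun q => ω q.2, fun g => ?_⟩
  rw [← hω, funext_iff, funext_iff, Prod.forall]
  exact ⟨fun h x => h (Classical.arbitrary Y) x, fun h _ x => h x⟩

lemma Sep.conj {σ : H →* Wr X (FreeGroup W)} {u : H} (h : Sep σ (Subgroup.zpowers u)) (g : H) :
    Sep σ (Subgroup.zpowers (g * u * g⁻¹)) := by
  obtain ⟨ω, hω⟩ := h
  refine ⟨sec (σ g) ω, fun h => ?_⟩
  have h1 : sec (σ h) (sec (σ g) ω) = sec (σ g) ω ↔ sec (σ (g⁻¹ * h * g)) ω = ω := by
    simp only [map_mul, map_inv, Perm.mul_apply]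
    rw [Perm.inv_eq_iff_eq]
  rw [h1, hω]
  simp only [Subgroup.mem_zpowers_iff, conj_zpow]
  refine exists_congr fun k => ⟨fun e => by rw [e]; group, fun e => by rw [← e]; group⟩

end sec

section om
variable {A Q : Type} [Group Q] (π : FreeGroup A →* Q)

/-- The vertical structure on the Cayley graph of `Q`. -/
def om : FreeGroup A →* Wr Q (FreeGroup (Q × A)) :=
  lift fun a => ⟨Equiv.mulLeft (π (of a)), fun y => of (y, a)⟩

lemma om_p (h : FreeGroup A) : (om π h).p = Equiv.mulLeft (π h) := by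
  have : pHom.comp (om π) = (MulAction.toPermHom Q Q).comp π := by
    ext a y; simp [om]
  exact DFunLike.congr_fun this h

lemma om_p_inv (h : FreeGroup A) (y : Q) : (om π h).p⁻¹ y = (π h)⁻¹ * y := by
  rw [om_p]; simp

lemma om_mul (g h : FreeGroup A) (y : Q) :
    (om π (g * h)).c y = (om π g).c y * (om π h).c ((π g)⁻¹ * y) := by
  rw [map_mul, mul_c, om_p_inv]

def lbl (x : A × Bool) (y : Q) : (Q × A) × Bool :=
  ((if x.2 then y else π (of x.1) * y, x.1), x.2)

lemma om_lt (x : A × Bool) (y : Q) : (om π (lt x)).c y = lt (lbl π x y) := by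
  obtain ⟨a, b⟩ := x
  cases b
  · rw [lt_false, map_inv, inv_c, om_p]; simp [om, lbl, lt_false]
  · rw [lt_true]; simp [om, lbl, lt_true]

def lw : List (A × Bool) → Q → List ((Q × A) × Bool)
  | [], _ => []
  | x :: L, y => lbl π x y :: lw L ((π (lt x))⁻¹ * y)

lemma om_mk (L : List (A × Bool)) (y : Q) : (om π (mk L)).c y = mk (lw π L y) := by
  induction L generalizing y with
  | nil => simp [mk_nil, lw]
  | cons x L ih => rw [mk_cons, om_mul, ih, om_lt, lw, mk_cons]

lemma lw_map (L : List (A × Bool)) (y : Q) : (lw π L y).map (fun l => (l.1.2, l.2)) = L := by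
  induction L generalizing y with
  | nil => rfl
  | cons x L ih => rw [lw, List.map_cons, ih]; rfl

lemma lw_reduced {L : List (A × Bool)} (h : IsReduced L) (y : Q) : IsReduced (lw π L y) := by
  rw [← lw_map π L y, FreeGroup.IsReduced, List.isChain_map] at h
  exact h.imp fun a b hab e => hab (congrArg Prod.snd e)

lemma map_om (h : FreeGroup A) (y : Q) : FreeGroup.map Prod.snd ((om π h).c y) = h := by
  obtain ⟨L⟩ := h
  rw [quot_mk_eq_mk, om_mk, map.mk, lw_map]

lemma sep_one : Sep (om π) (Subgroup.zpowers 1) := by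
  refine ⟨fun _ => fb (false, ∅) 1, fun h => ⟨fun e => ?_, fun e => ?_⟩⟩
  · have h1 := congrFun e 1
    rw [sec_apply, smul_fb_one] at h1
    have := FS_empty h1
    rw [← map_om π h 1, this, map_one]
    exact Subgroup.one_mem _
  · rw [Subgroup.zpowers_one_eq_bot, Subgroup.mem_bot] at e
    simp [e]

lemma lbl_eq {x x' : A × Bool} {y y' : Q} (h : (lbl π x y).1 = (lbl π x' y').1) :
    (x = x' ∧ y = y') ∨ (x = (x'.1, !x'.2) ∧ y = (π (lt x'))⁻¹ * y') := by
  obtain ⟨a, b⟩ := x
  obtain ⟨a', b'⟩ := x'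
  simp only [lbl, Prod.mk.injEq] at h
  obtain ⟨h, rfl⟩ := h
  cases b <;> cases b' <;> simp [lt_true, lt_false] at h ⊢
  · exact h
  · rw [← h]; simp
  · exact h
  · exact h

end om

end Pool.Agent.P.MP_67c9d4_al
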