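import Pool.Agent.P.MP_67c9d4_al.Defs
import Pool.Agent.P.MP_67c9d4_al.Om

/-! Embedding free groups extended by products of free groups into right-angled Artin groups. -/

namespace Pool.Agent.P.MP_67c9d4_al

open Equiv Wr Multiplicative
open FreeGroup hiding map_mul map_inv map_one

/-- Permutations of the basis act on a free group. -/
def pa {Ω : Type} : Perm Ω →* MulAut (FreeGroup Ω) where
  toFun p := freeGroupCongr p
  map_one' := freeGroupCongr_refl
  map_mul' p q := (freeGroupCongr_trans q p).symm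

lemma pa_lt {Ω : Type} (p : Perm Ω) (x : Ω × Bool) : pa p (lt x) = lt (p x.1, x.2) := rfl

lemma pa_of {Ω : Type} (p : Perm Ω) (x : Ω) : pa p (of x) = of (p x) := rfl

lemma commute_lift {W R : Type} [Group R] {f : W → R} {S : Set W} {x : R}
    (h : ∀ l ∈ S, Commute x (f l)) {b : FreeGroup W} (hb : b ∈ FS S) : Commute x (lift f b) := by
  induction hb using Subgroup.closure_induction with
  | mem b hb => obtain ⟨a, ha, rfl⟩ := hb; simpa using h a ha
  | one => simp
  | mul a b _ _ ha hb => rw [map_mul]; exact ha.mul_right hb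
  | inv a _ ha => rw [map_inv]; exact ha.inv_right

lemma raag_comm {T : Type} {R : T → T → Prop} {a b : T} (h : R a b) :
    Commute (PresentedGroup.of a : RAAG (SimpleGraph.fromRel R)) (PresentedGroup.of b) := by
  by_cases e : a = b
  · rw [e]
  · rw [← commutatorElement_eq_one_iff_commute, commutatorElement_def]
    exact PresentedGroup.one_of_mem ⟨a, b, (SimpleGraph.fromRel_adj _ _ _).2 ⟨e, Or.inl h⟩, rfl⟩

theorem raag_embed {I W J Ω : Type} [Finite I] [Finite W] [Finite J]
    (act : (I → FreeGroup W) →* Perm Ω) (j : Ω → J) (pt : J → Ω) (S : J → I → Set W)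
    (h1 : ∀ ω, ∃ b, ω = act b (pt (j ω))) (h2 : ∀ b ω, j (act b ω) = j ω)
    (h3 : ∀ b k, act b (pt k) = pt k ↔ ∀ i, b i ∈ FS (S k i)) :
    ∃ (T : Type) (_ : Finite T) (Γ : SimpleGraph T)
      (f : (FreeGroup Ω ⋊[pa.comp act] (I → FreeGroup W)) × Multiplicative ℤ →* RAAG Γ),
      Function.Injective f := by
  classical
  haveI := Fintype.ofFinite I
  let R : Option (J ⊕ I × W) → Option (J ⊕ I × W) → Prop := fun x y => match x, y with
    | none, _ => True
    | some (.inl k), some (.inr l) => l.2 ∈ S k l.1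
    | some (.inr l), some (.inr l') => l.1 ≠ l'.1
    | _, _ => False
  let g : Option (J ⊕ I × W) → RAAG (SimpleGraph.fromRel R) := PresentedGroup.of
  let φ : I → FreeGroup W →* RAAG (SimpleGraph.fromRel R) := fun i =>
    lift fun l => g (some (.inr (i, l)))
  have hφ : Pairwise fun i i' => ∀ b b', Commute (φ i b) (φ i' b') := fun i i' h b b' =>
    commute_lift (fun l' _ => (commute_lift (fun l _ => raag_comm (R := R) h.symm)
      (FS_univ b)).symm) (FS_univ b')
  let fB := MonoidHom.noncommPiCoprod φ hφ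
  have hB : ∀ x b, (∀ i, Commute x (φ i (b i))) → Commute x (fB b) := fun x b h =>
    Finset.noncommProd_commute _ _ (fun i _ i' _ e => hφ e _ _) _ fun i _ => h i
  choose b hb using h1
  let fΩ : FreeGroup Ω →* RAAG (SimpleGraph.fromRel R) :=
    lift fun ω => fB (b ω) * g (some (.inl (j ω))) * (fB (b ω))⁻¹
  have hc : ∀ c, fΩ.comp (pa.comp act c).toMonoidHom =
      (MulAut.conj (fB c)).toMonoidHom.comp fΩ := by
    intro c
    refine FreeGroup.ext_hom _ _ fun ω => ?_
    have e1 : act ((b (act c ω))⁻¹ * c * b ω) (pt (j ω)) = pt (j ω) := by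
      rw [map_mul, map_mul, map_inv, Perm.mul_apply, Perm.mul_apply, ← hb, Perm.inv_eq_iff_eq,
        ← h2 c ω, ← hb]
    have e2 := hB (g (some (.inl (j ω)))) _ fun i =>
      commute_lift (fun l hl => raag_comm (R := R) hl) ((h3 _ _).1 e1 i)
    rw [map_mul, map_mul, map_inv] at e2
    change fΩ (of (act c ω)) = fB c * fΩ (of ω) * (fB c)⁻¹
    simp only [fΩ, lift_apply_of, h2]
    calc _ = fB (b (act c ω)) * (g (some (.inl (j ω))) * ((fB (b (act c ω)))⁻¹ * fB c * fB (b ω))) *
        (fB c * fB (b ω))⁻¹ := by group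
      _ = _ := by rw [e2.eq]; group
  let Φ := SemidirectProduct.lift fΩ fB hc
  have hn : ∀ x, Commute (g none) (Φ x) := fun x => by
    have e1 : ∀ c, Commute (g none) (fB c) := fun c => hB _ c fun i =>
      commute_lift (fun l _ => raag_comm (R := R) trivial) (FS_univ _)
    exact (commute_lift (fun ω _ => ((e1 _).mul_right (raag_comm (R := R) trivial)).mul_right
      (e1 _).inv_right) (FS_univ _)).mul_right (e1 _)
  let ψ : Option (J ⊕ I × W) →
      (FreeGroup Ω ⋊[pa.comp act] (I → FreeGroup W)) × Multiplicative ℤ := fun x => match x with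
    | none => (1, ofAdd 1)
    | some (.inl k) => (.inl (of (pt k)), 1)
    | some (.inr l) => (.inr (Pi.mulSingle l.1 (of l.2)), 1)
  have hψ : ∀ x y, R x y → Commute (ψ x) (ψ y) := by
    rintro (_ | k | l) (_ | k' | l') h <;> try exact h.elim
    all_goals refine Prod.ext ?_ (mul_comm _ _)
    · rfl
    · exact (one_mul _).trans (mul_one _).symm
    · exact (one_mul _).trans (mul_one _).symm
    · have e1 := (h3 (Pi.mulSingle l'.1 (of l'.2)) k).2 fun i => by
        by_cases e : i = l'.1
        · subst e; rw [Pi.mulSingle_eq_same]; exact lt_mem (x := (l'.2, true)) h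
        · rw [Pi.mulSingle_eq_of_ne e]; exact Subgroup.one_mem _
      ext
      · simp [ψ, pa_of, e1]
      · simp [ψ]
    · exact ((Pi.mulSingle_commute (f := fun _ => FreeGroup W) h _ _).map SemidirectProduct.inr).eq
  let Ψ : RAAG (SimpleGraph.fromRel R) →* _ := PresentedGroup.toGroup (f := ψ) (by
    rintro _ ⟨x, y, h, rfl⟩
    simp only [map_mul, map_inv, lift_apply_of]
    rw [← commutatorElement_def, commutatorElement_eq_one_iff_commute]
    exact ((SimpleGraph.fromRel_adj _ _ _).1 h).2.elim (hψ x y) fun h => (hψ y x h).symm)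
  have hΨ : ∀ x, Ψ (g x) = ψ x := fun x => PresentedGroup.toGroup.of _
  have e1 : Ψ.comp fB = (MonoidHom.inl _ _).comp SemidirectProduct.inr := by
    refine MonoidHom.pi_ext fun i c => ?_
    have : Ψ.comp (φ i) = ((MonoidHom.inl _ _).comp SemidirectProduct.inr).comp
        (MonoidHom.mulSingle (fun _ => FreeGroup W) i) :=
      FreeGroup.ext_hom _ _ fun l => by simp [φ, hΨ, ψ]
    rw [MonoidHom.comp_apply, MonoidHom.noncommPiCoprod_mulSingle]
    exact DFunLike.congr_fun this c
  have e1' : ∀ c, Ψ (fB c) = (.inr c, 1) := fun c => DFunLike.congr_fun e1 c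
  have e2 : Ψ.comp fΩ = (MonoidHom.inl _ _).comp SemidirectProduct.inl := by
    refine FreeGroup.ext_hom _ _ fun ω => ?_
    simp only [MonoidHom.comp_apply, fΩ, lift_apply_of, map_mul, map_inv, e1', hΨ, ψ]
    conv_rhs => rw [hb ω, ← pa_of, ← MonoidHom.comp_apply pa, SemidirectProduct.inl_aut]
    simp
  refine ⟨_, inferInstance, _, Φ.noncommCoprod (zpowersHom _ (g none))
    (fun x n => ((hn x).zpow_left _).symm), Function.LeftInverse.injective (g := Ψ) fun x => ?_⟩
  have e3 : Ψ (Φ x.1) = (x.1, 1) := by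
    have : Φ x.1 = fΩ x.1.left * fB x.1.right := rfl
    rw [this, map_mul, e1', ← MonoidHom.comp_apply, e2]
    simp
  rw [MonoidHom.noncommCoprod_apply, map_mul, e3, zpowersHom_apply, map_zpow, hΨ]
  ext
  · simp [ψ]
  · simp [ψ]
  · simp [ψ]

/-- The action on tagged sections. -/
def secK {K I W : Type} : Wr I (FreeGroup W) →* Perm (K × (I → Fib W)) :=
  pHom.comp (flat.comp base) |>.comp
    ((Pi.constMonoidHom K _).comp (cst (X := I → Fib W) sec (1 : _ →* Unit)))

lemma secK_apply {K I W : Type} (g : Wr I (FreeGroup W)) (x : K × (I → Fib W)) :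
    secK g x = (x.1, sec g x.2) := rfl

theorem raag_wr {K I W G : Type} [Finite K] [Finite I] [Finite W] [Group G]
    (θ : G →* (FreeGroup (K × (I → Fib W)) ⋊[pa.comp secK] Wr I (FreeGroup W)) × Multiplicative ℤ)
    (hθ : Function.Injective θ) : ∃ H : Subgroup G, H.FiniteIndex ∧
      ∃ (T : Type) (_ : Finite T) (Γ : SimpleGraph T) (f : H →* RAAG Γ), Function.Injective f := by
  obtain ⟨T, _, Γ, f, hf⟩ := raag_embed (J := K × (I → Bool × Set W)) (secK.comp base)
    (fun ω => (ω.1, fun i => (ω.2 i).1)) (fun k => (k.1, fun i => fb (k.2 i) 1))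
    (fun k i => (k.2 i).2)
    (fun ω => ⟨fun i => (ω.2 i).2.out, Prod.ext rfl (funext fun i =>
      (fb_out _).symm.trans (congrArg (fb _) (mul_one _).symm))⟩)
    (fun _ _ => rfl)
    (fun b k => by
      rw [MonoidHom.comp_apply, secK_apply, Prod.mk.injEq, and_iff_right rfl, funext_iff]
      exact forall_congr' fun i => smul_fb_one)
  let j := (SemidirectProduct.map (φ₁ := pa.comp (secK.comp base)) (φ₂ := pa.comp secK)
    (MonoidHom.id (FreeGroup (K × (I → Fib W)))) base fun _ => rfl).prodMap
      (MonoidHom.id (Multiplicative ℤ))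
  have hj : Function.Injective j := fun x y h => by
    have h1 := congrArg (fun x => x.1.left) h
    have h2 := congrArg (fun x => x.1.right.c) h
    have h3 := congrArg Prod.snd h
    exact Prod.ext (SemidirectProduct.ext h1 h2) h3
  let π := pHom.comp (SemidirectProduct.rightHom.comp ((MonoidHom.fst _ _).comp θ))
  have hr : ∀ g : π.ker, θ.comp π.ker.subtype g ∈ j.range := fun g =>
    ⟨(⟨(θ g).1.left, (θ g).1.right.c⟩, (θ g).2),
      Prod.ext (SemidirectProduct.ext rfl (eq_base g.2).symm) rfl⟩
  refine ⟨π.ker, inferInstance, T, inferInstance, Γ, f.comp ((MonoidHom.ofInjective hj).symm.toMonoidHom.comp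
    ((θ.comp π.ker.subtype).codRestrict _ hr)), ?_⟩
  refine hf.comp ((MonoidHom.ofInjective hj).symm.injective.comp fun x y h => ?_)
  exact Subtype.ext (hθ (congrArg Subtype.val h))

end Pool.Agent.P.MP_67c9d4_al
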