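import Mathlib

/-! Permutational wreath products and their basic constructions. -/

namespace Pool.Agent.P.MP_67c9d4_al

open Equiv

/-- The wreath product of `B` with the symmetric group of `X`. -/
@[ext] structure Wr (X B : Type) where
  p : Perm X
  c : X → B

namespace Wr

variable {X Y B B' H : Type} [Group B] [Group B'] [Group H]

instance : Mul (Wr X B) := ⟨fun g h => ⟨g.p * h.p, fun y => g.c y * h.c (g.p⁻¹ y)⟩⟩
instance : One (Wr X B) := ⟨⟨1, fun _ => 1⟩⟩
instance : Inv (Wr X B) := ⟨fun g => ⟨g.p⁻¹, fun y => (g.c (g.p y))⁻¹⟩⟩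

@[simp] lemma mul_p (g h : Wr X B) : (g * h).p = g.p * h.p := rfl
@[simp] lemma mul_c (g h : Wr X B) (y : X) : (g * h).c y = g.c y * h.c (g.p⁻¹ y) := rfl
@[simp] lemma one_p : (1 : Wr X B).p = 1 := rfl
@[simp] lemma one_c (y : X) : (1 : Wr X B).c y = 1 := rfl
@[simp] lemma inv_p (g : Wr X B) : (g⁻¹).p = g.p⁻¹ := rfl
@[simp] lemma inv_c (g : Wr X B) (y : X) : (g⁻¹).c y = (g.c (g.p y))⁻¹ := rfl

instance : Group (Wr X B) :=
  Group.ofLeftAxioms
    (fun a b c => by ext y <;> simp [mul_assoc])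
    (fun a => by ext y <;> simp)
    (fun a => by ext y <;> simp)

def pHom : Wr X B →* Perm X := ⟨⟨Wr.p, rfl⟩, fun _ _ => rfl⟩

@[simp] lemma pHom_apply (g : Wr X B) : pHom g = g.p := rfl

lemma pow_p (g : Wr X B) (n : ℕ) : (g ^ n).p = g.p ^ n := map_pow pHom g n
lemma zpow_p (g : Wr X B) (n : ℤ) : (g ^ n).p = g.p ^ n := map_zpow pHom g n

def base : (X → B) →* Wr X B where
  toFun b := ⟨1, b⟩
  map_one' := rfl
  map_mul' a b := by ext y <;> simp

@[simp] lemma base_p (b : X → B) : (base b).p = 1 := rfl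
@[simp] lemma base_c (b : X → B) (y : X) : (base b).c y = b y := rfl

lemma eq_base {g : Wr X B} (h : g.p = 1) : g = base g.c := by
  ext y
  · simp [h]
  · rfl

lemma pow_c {g : Wr X B} (h : g.p = 1) (n : ℕ) (y : X) : (g ^ n).c y = g.c y ^ n := by
  have : g ^ n = base (g.c ^ n) := by rw [map_pow, ← eq_base h]
  rw [this, base_c]; rfl

lemma zpow_c {g : Wr X B} (h : g.p = 1) (n : ℤ) (y : X) : (g ^ n).c y = g.c y ^ n := by
  have : g ^ n = base (g.c ^ n) := by rw [map_zpow, ← eq_base h]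
  rw [this, base_c]; rfl

lemma conj_c (u : Wr X B) {g : Wr X B} (h : g.p = 1) (y : X) :
    (u * g * u⁻¹).c y = u.c y * g.c (u.p⁻¹ y) * (u.c y)⁻¹ := by
  simp [h]

lemma conj_p (u : Wr X B) {g : Wr X B} (h : g.p = 1) : (u * g * u⁻¹).p = 1 := by
  simp [h]

def push (ψ : B →* B') : Wr X B →* Wr X B' where
  toFun g := ⟨g.p, fun y => ψ (g.c y)⟩
  map_one' := by ext y <;> simp
  map_mul' a b := by ext y <;> simp

@[simp] lemma push_p (ψ : B →* B') (g : Wr X B) : (push ψ g).p = g.p := rfl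
@[simp] lemma push_c (ψ : B →* B') (g : Wr X B) (y : X) : (push ψ g).c y = ψ (g.c y) := rfl

def flatP (g : Wr X (Wr Y B)) : Perm (X × Y) where
  toFun q := (g.p q.1, (g.c (g.p q.1)).p q.2)
  invFun q := (g.p⁻¹ q.1, (g.c q.1).p⁻¹ q.2)
  left_inv q := by simp
  right_inv q := by simp

def flat : Wr X (Wr Y B) →* Wr (X × Y) B where
  toFun g := ⟨flatP g, fun q => (g.c q.1).c q.2⟩
  map_one' := by ext y <;> simp [flatP]
  map_mul' a b := by
    ext y
    · simp [flatP]
    · simp [flatP]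
    · rfl

@[simp] lemma flat_p (g : Wr X (Wr Y B)) (q : X × Y) :
    (flat g).p q = (g.p q.1, (g.c (g.p q.1)).p q.2) := rfl
@[simp] lemma flat_p_inv (g : Wr X (Wr Y B)) (q : X × Y) :
    (flat g).p⁻¹ q = (g.p⁻¹ q.1, (g.c q.1).p⁻¹ q.2) := rfl
@[simp] lemma flat_c (g : Wr X (Wr Y B)) (q : X × Y) : (flat g).c q = (g.c q.1).c q.2 := rfl

def cst (α : H →* Perm X) (σ : H →* B) : H →* Wr X B where
  toFun h := ⟨α h, fun _ => σ h⟩
  map_one' := by ext y <;> simp
  map_mul' a b := by ext y <;> simp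

@[simp] lemma cst_p (α : H →* Perm X) (σ : H →* B) (h : H) : (cst α σ h).p = α h := rfl
@[simp] lemma cst_c (α : H →* Perm X) (σ : H →* B) (h : H) (y : X) :
    (cst α σ h).c y = σ h := rfl

def pull (α : H →* Perm X) (σ : H →* Wr Y B) (π : X → Y)
    (hπ : ∀ h x, π (α h x) = (σ h).p (π x)) : H →* Wr X B where
  toFun h := ⟨α h, fun x => (σ h).c (π x)⟩
  map_one' := by ext y <;> simp
  map_mul' a b := by
    ext y
    · simp
    · have := hπ a⁻¹ y
      simp only [map_inv, inv_p, Perm.coe_inv] at this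
      simp [this]

@[simp] lemma pull_p (α : H →* Perm X) (σ : H →* Wr Y B) (π : X → Y) (hπ) (h : H) :
    (pull α σ π hπ h).p = α h := rfl
@[simp] lemma pull_c (α : H →* Perm X) (σ : H →* Wr Y B) (π : X → Y) (hπ) (h : H) (x : X) :
    (pull α σ π hπ h).c x = (σ h).c (π x) := rfl

open Classical in
noncomputable def restr (σ : H →* Wr X B) (P : X → Prop)
    (hP : ∀ h x, P ((σ h).p x) ↔ P x) : H →* Wr X B where
  toFun h := ⟨(σ h).p, fun x => if P x then (σ h).c x else 1⟩
  map_one' := by ext y <;> simp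
  map_mul' a b := by
    ext y
    · simp
    · have := hP a⁻¹ y
      simp only [map_inv, inv_p, Perm.coe_inv] at this
      by_cases h : P y <;> simp [this, h]

@[simp] lemma restr_p (σ : H →* Wr X B) (P : X → Prop) (hP) (h : H) :
    (restr σ P hP h).p = (σ h).p := rfl
open Classical in
@[simp] lemma restr_c (σ : H →* Wr X B) (P : X → Prop) (hP) (h : H) (x : X) :
    (restr σ P hP h).c x = if P x then (σ h).c x else 1 := rfl

def sum (σ : H →* Wr X B) (σ' : H →* Wr Y B) : H →* Wr (X ⊕ Y) B where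
  toFun h := ⟨Equiv.sumCongr (σ h).p (σ' h).p, Sum.elim (σ h).c (σ' h).c⟩
  map_one' := by ext y <;> cases y <;> simp
  map_mul' a b := by
    ext y <;> cases y <;> simp [Perm.inv_def]

@[simp] lemma sum_p (σ : H →* Wr X B) (σ' : H →* Wr Y B) (h : H) :
    (sum σ σ' h).p = Equiv.sumCongr (σ h).p (σ' h).p := rfl
@[simp] lemma sum_c (σ : H →* Wr X B) (σ' : H →* Wr Y B) (h : H) :
    (sum σ σ' h).c = Sum.elim (σ h).c (σ' h).c := rfl

lemma ind_mem (K : Subgroup H) (g : H) (y : H ⧸ K) :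
    y.out⁻¹ * g * (g⁻¹ • y).out ∈ K := by
  rw [mul_assoc, ← QuotientGroup.eq, QuotientGroup.out_eq']
  have : ((g * (g⁻¹ • y).out : H) : H ⧸ K) = g • (((g⁻¹ • y).out : H) : H ⧸ K) := rfl
  rw [this, QuotientGroup.out_eq', smul_inv_smul]

/-- The induced cocycle of a homomorphism defined on a subgroup. -/
noncomputable def ind (K : Subgroup H) (f : K →* B) : H →* Wr (H ⧸ K) B where
  toFun g := ⟨MulAction.toPerm g, fun y => f ⟨_, ind_mem K g y⟩⟩
  map_one' := by
    ext y
    · simp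
    · rw [one_c, ← map_one f]
      exact congrArg f (by ext; simp)
  map_mul' a b := by
    ext y
    · simp [mul_smul]
    · rw [mul_c, ← map_mul f]
      exact congrArg f (by ext; simp [Perm.inv_def, mul_smul, mul_assoc])

@[simp] lemma ind_p (K : Subgroup H) (f : K →* B) (g : H) (y : H ⧸ K) :
    (ind K f g).p y = g • y := rfl

lemma ind_c_one {C : Type} [CommGroup C] (K : Subgroup H) (f : K →* C) (g : K) :
    (ind K f g).c ((1 : H) : H ⧸ K) = f g := by
  have h1 : (((1 : H) : H ⧸ K)).out ∈ K := by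
    have := QuotientGroup.out_eq' (((1 : H) : H ⧸ K))
    rw [QuotientGroup.eq] at this
    simpa using this
  have h2 : (g : H)⁻¹ • ((1 : H) : H ⧸ K) = ((1 : H) : H ⧸ K) := by
    change ((((g : H)⁻¹ * 1 : H)) : H ⧸ K) = _
    rw [QuotientGroup.eq]; simp
  have : (ind K f g).c ((1 : H) : H ⧸ K) = f (⟨_, h1⟩⁻¹ * g * ⟨_, h1⟩) := by
    change f _ = _
    congr 1; ext; simp [h2]
  rw [this, map_mul, map_mul, map_inv]
  simp [mul_comm]

/-- The total weight of a cocycle with commutative values. -/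
def tot {C : Type} [CommGroup C] [Fintype X] : Wr X C →* C where
  toFun g := ∏ y, g.c y
  map_one' := by simp
  map_mul' a b := by
    simp only [mul_c, Finset.prod_mul_distrib]
    congr 1
    exact Equiv.prod_comp a.p⁻¹ b.c

lemma tot_apply {C : Type} [CommGroup C] [Fintype X] (g : Wr X C) : tot g = ∏ y, g.c y := rfl

lemma shift_pow {N : ℕ} (g : Wr (ZMod N) B) (θ : ZMod N) (h : ∀ y, g.p y = y + θ) (i : ℕ)
    (y : ZMod N) : (g ^ i).p y = y + i * θ := by
  induction i generalizing y with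
  | zero => simp
  | succ i ih => rw [pow_succ, mul_p, Perm.mul_apply, ih, h]; push_cast; ring

lemma cyc {N : ℕ} [NeZero N] (g : Wr (ZMod N) (Multiplicative ℤ)) (θ : ZMod N)
    (h : ∀ y, g.p y = y + θ) (hθ : IsUnit θ) (y : ZMod N) : (g ^ N).c y = tot g := by
  have hp : (g ^ N).p = 1 := by
    ext y; rw [shift_pow g θ h]; simp
  have h1 : ∀ y, (g ^ N).c (y + θ) = (g ^ N).c y := by
    intro y
    have h2 : g * g ^ N * g⁻¹ = g ^ N := by group
    have h3 := conj_c g hp (y + θ)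
    rw [h2, ← h y] at h3
    rw [← h y, h3]
    simp [mul_comm]
  have h2 : ∀ (i : ℕ) y, (g ^ N).c (y + i * θ) = (g ^ N).c y := by
    intro i
    induction i with
    | zero => simp
    | succ i ih => intro y; rw [← ih y, ← h1 (y + i * θ)]; congr 1; push_cast; ring
  have h3 : ∀ y', (g ^ N).c y' = (g ^ N).c y := by
    intro y'
    obtain ⟨u, rfl⟩ := hθ
    rw [← h2 ((y' - y) * (u⁻¹ : (ZMod N)ˣ)).val y]
    congr 1
    simp [mul_assoc]
  have h4 : tot (g ^ N) = (g ^ N).c y ^ N := by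
    rw [tot_apply, Finset.prod_congr rfl (fun y' _ => h3 y')]
    simp
  rw [map_pow] at h4
  exact (pow_left_injective (NeZero.ne N) h4).symm

end Wr

end Pool.Agent.P.MP_67c9d4_al
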